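import Pool.Agent.H60.Big.Moment
import Pool.Agent.H64.Slab.Vol

set_option autoImplicit false

open MeasureTheory Set Filter Topology

namespace Pool.Agent.H60.Big

open Pool.Agent.H64.Slab

/-- The elementary pair functions. -/
noncomputable def LL (k : ℕ) (p d y : ℝ) : ℝ :=
  (p ^ 2 - d ^ 2) / 4 * ((ptr k (p - y) - ptr k (-p - y)) / p + (ptr k (d - y) - ptr k (-d - y)) / d) -
    ((ptr (k + 1) (p - y) + ptr (k + 1) (-p - y)) - (ptr (k + 1) (d - y) + ptr (k + 1) (-d - y)))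

theorem ptr_sub_hasDerivAt {k : ℕ} (hk : 1 ≤ k) (c y : ℝ) :
    HasDerivAt (fun y => ptr (k + 1) (c - y)) (-ptr k (c - y)) y := by
  have h3 : HasDerivAt (fun x : ℝ => c - x) (-1) y := by
    simpa using (hasDerivAt_id y).const_sub c
  exact ((ptr_hasDerivAt hk (c - y)).comp y h3).congr_deriv (by ring)

theorem LL_hasDerivAt {k : ℕ} (hk : 1 ≤ k) (p d y : ℝ) :
    HasDerivAt (LL (k + 1) p d) (-LL k p d y) y := by
  unfold LL
  have h1 := ptr_sub_hasDerivAt hk p y
  have h2 := ptr_sub_hasDerivAt hk (-p) y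
  have h3 := ptr_sub_hasDerivAt hk d y
  have h4 := ptr_sub_hasDerivAt hk (-d) y
  have g1 := ptr_sub_hasDerivAt (k := k + 1) (by omega) p y
  have g2 := ptr_sub_hasDerivAt (k := k + 1) (by omega) (-p) y
  have g3 := ptr_sub_hasDerivAt (k := k + 1) (by omega) d y
  have g4 := ptr_sub_hasDerivAt (k := k + 1) (by omega) (-d) y
  have := (((((h1.sub h2).div_const p).add ((h3.sub h4).div_const d)).const_mul
    ((p ^ 2 - d ^ 2) / 4)).sub ((g1.add g2).sub (g3.add g4)))
  refine this.congr_deriv ?_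
  ring

theorem LL_continuous (k : ℕ) (p d : ℝ) : Continuous (LL k p d) := by
  unfold LL
  have h1 := ptr_continuous k
  have h2 := ptr_continuous (k + 1)
  fun_prop

theorem ptr3_sub (z : ℝ) : ptr 3 z - ptr 3 (-z) = z ^ 3 / 6 := by
  rcases le_total z 0 with h | h
  · rw [ptr_of_nonpos (by norm_num) h, ptr_of_nonneg (by linarith)]
    norm_num [Nat.factorial]; ring
  · rw [ptr_of_nonneg h, ptr_of_nonpos (by norm_num) (by linarith : -z ≤ 0)]
    norm_num [Nat.factorial]

theorem ptr4_add (z : ℝ) : ptr 4 z + ptr 4 (-z) = z ^ 4 / 24 := by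
  rcases le_total z 0 with h | h
  · rw [ptr_of_nonpos (by norm_num) h, ptr_of_nonneg (by linarith)]
    norm_num [Nat.factorial]
  · rw [ptr_of_nonneg h, ptr_of_nonpos (by norm_num) (by linarith : -z ≤ 0)]
    norm_num [Nat.factorial]

section base

variable {p d : ℝ}

theorem LL3_odd (hd : 0 < d) (hp : d < p) (y : ℝ) : LL 3 p d (-y) = - LL 3 p d y := by
  have hp0 : 0 < p := hd.trans hp
  have a1 := ptr3_sub (p - y)
  have a2 := ptr3_sub (p + y)
  have a3 := ptr3_sub (d - y)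
  have a4 := ptr3_sub (d + y)
  have b1 := ptr4_add (p - y)
  have b2 := ptr4_add (p + y)
  have b3 := ptr4_add (d - y)
  have b4 := ptr4_add (d + y)
  have e1 : p - -y = p + y := by ring
  have e2 : -p - -y = -(p - y) := by ring
  have e3 : d - -y = d + y := by ring
  have e4 : -d - -y = -(d - y) := by ring
  have e5 : -p - y = -(p + y) := by ring
  have e6 : -d - y = -(d + y) := by ring
  unfold LL
  rw [e1, e2, e3, e4, e5, e6]
  have c1 : ptr 3 (p + y) = ptr 3 (-(p + y)) + (p + y) ^ 3 / 6 := by linarith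
  have c2 : ptr 3 (p - y) = ptr 3 (-(p - y)) + (p - y) ^ 3 / 6 := by linarith
  have c3 : ptr 3 (d + y) = ptr 3 (-(d + y)) + (d + y) ^ 3 / 6 := by linarith
  have c4 : ptr 3 (d - y) = ptr 3 (-(d - y)) + (d - y) ^ 3 / 6 := by linarith
  have c5 : ptr (3 + 1) (p + y) = -ptr (3 + 1) (-(p + y)) + (p + y) ^ 4 / 24 := by linarith
  have c6 : ptr (3 + 1) (p - y) = -ptr (3 + 1) (-(p - y)) + (p - y) ^ 4 / 24 := by linarith
  have c7 : ptr (3 + 1) (d + y) = -ptr (3 + 1) (-(d + y)) + (d + y) ^ 4 / 24 := by linarith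
  have c8 : ptr (3 + 1) (d - y) = -ptr (3 + 1) (-(d - y)) + (d - y) ^ 4 / 24 := by linarith
  rw [c1, c2, c3, c4, c5, c6, c7, c8]
  field_simp
  ring

theorem LL_far {k : ℕ} (hk : k ≠ 0) (hd : 0 < d) (hp : d < p) {y : ℝ} (hy : p ≤ y) :
    LL k p d y = 0 := by
  unfold LL
  rw [ptr_of_nonpos hk (by linarith), ptr_of_nonpos hk (by linarith), ptr_of_nonpos hk (by linarith),
    ptr_of_nonpos hk (by linarith), ptr_of_nonpos (by omega) (by linarith),
    ptr_of_nonpos (by omega) (by linarith), ptr_of_nonpos (by omega) (by linarith),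
    ptr_of_nonpos (by omega) (by linarith)]
  simp

theorem LL_mid {k : ℕ} (hk : k ≠ 0) (hd : 0 < d) (hp : d < p) {y : ℝ} (hy : d ≤ y) (hy2 : y ≤ p) :
    LL k p d y = (p ^ 2 - d ^ 2) / 4 * ((p - y) ^ k / (k.factorial : ℝ) / p) -
      (p - y) ^ (k + 1) / ((k + 1).factorial : ℝ) := by
  unfold LL
  rw [ptr_of_nonneg (k := k) (y := p - y) (by linarith), ptr_of_nonpos hk (by linarith : -p - y ≤ 0),
    ptr_of_nonpos hk (by linarith : d - y ≤ 0), ptr_of_nonpos hk (by linarith : -d - y ≤ 0),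
    ptr_of_nonneg (k := k + 1) (y := p - y) (by linarith),
    ptr_of_nonpos (by omega) (by linarith : -p - y ≤ 0),
    ptr_of_nonpos (by omega) (by linarith : d - y ≤ 0),
    ptr_of_nonpos (by omega) (by linarith : -d - y ≤ 0)]
  simp

theorem LL_near {k : ℕ} (hk : k ≠ 0) (hd : 0 < d) (hp : d < p) {y : ℝ} (hy : 0 ≤ y) (hy2 : y ≤ d) :
    LL k p d y = (p ^ 2 - d ^ 2) / 4 * ((p - y) ^ k / (k.factorial : ℝ) / p +
        (d - y) ^ k / (k.factorial : ℝ) / d) -
      ((p - y) ^ (k + 1) / ((k + 1).factorial : ℝ) - (d - y) ^ (k + 1) / ((k + 1).factorial : ℝ)) := by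
  unfold LL
  rw [ptr_of_nonneg (k := k) (y := p - y) (by linarith), ptr_of_nonpos hk (by linarith : -p - y ≤ 0),
    ptr_of_nonneg (k := k) (y := d - y) (by linarith), ptr_of_nonpos hk (by linarith : -d - y ≤ 0),
    ptr_of_nonneg (k := k + 1) (y := p - y) (by linarith),
    ptr_of_nonpos (by omega) (by linarith : -p - y ≤ 0),
    ptr_of_nonneg (k := k + 1) (y := d - y) (by linarith),
    ptr_of_nonpos (by omega) (by linarith : -d - y ≤ 0)]
  simp

theorem v_in (hd : 0 < d) (hp : d < p) {y : ℝ} (hy : 0 ≤ y) (hy2 : y ≤ d) :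
    LL 3 p d y = (p - d) ^ 3 * y * (p * d - y ^ 2) / (24 * p * d) := by
  have hp0 : 0 < p := hd.trans hp
  rw [LL_near (by norm_num) hd hp hy hy2]
  norm_num [Nat.factorial]
  field_simp
  ring

theorem q_in (hd : 0 < d) (hp : d < p) {y : ℝ} (hy : 0 ≤ y) (hy2 : y ≤ d) :
    LL 2 p d y = (p - d) ^ 3 * (3 * y ^ 2 - p * d) / (24 * p * d) := by
  have hp0 : 0 < p := hd.trans hp
  rw [LL_near (by norm_num) hd hp hy hy2]
  norm_num [Nat.factorial]
  field_simp
  ring

theorem F_in (hd : 0 < d) (hp : d < p) {y : ℝ} (hy : 0 ≤ y) (hy2 : y ≤ d) :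
    LL 1 p d y = -((p - d) ^ 3 * y) / (4 * p * d) := by
  have hp0 : 0 < p := hd.trans hp
  rw [LL_near (by norm_num) hd hp hy hy2]
  norm_num [Nat.factorial]
  field_simp
  ring

theorem v_out (hd : 0 < d) (hp : d < p) {y : ℝ} (hy : d ≤ y) (hy2 : y ≤ p) :
    LL 3 p d y = (p - y) ^ 3 * ((p ^ 2 - d ^ 2) / p - (p - y)) / 24 := by
  have hp0 : 0 < p := hd.trans hp
  rw [LL_mid (by norm_num) hd hp hy hy2]
  norm_num [Nat.factorial]
  field_simp
  ring

theorem q_out (hd : 0 < d) (hp : d < p) {y : ℝ} (hy : d ≤ y) (hy2 : y ≤ p) :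
    LL 2 p d y = (p - y) ^ 2 * (3 * ((p ^ 2 - d ^ 2) / p) - 4 * (p - y)) / 24 := by
  have hp0 : 0 < p := hd.trans hp
  rw [LL_mid (by norm_num) hd hp hy hy2]
  norm_num [Nat.factorial]
  field_simp
  ring

theorem F_out (hd : 0 < d) (hp : d < p) {y : ℝ} (hy : d ≤ y) (hy2 : y ≤ p) :
    LL 1 p d y = (p - y) * ((p ^ 2 - d ^ 2) / p - 2 * (p - y)) / 4 := by
  have hp0 : 0 < p := hd.trans hp
  rw [LL_mid (by norm_num) hd hp hy hy2]
  norm_num [Nat.factorial]
  field_simp
  ring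

/-- `2c - Y > 0` -/
theorem aux_c (hd : 0 < d) (hp : d < p) {y : ℝ} (hy : d ≤ y) :
    0 < (p ^ 2 - d ^ 2) / p - (p - y) := by
  have hp0 : 0 < p := hd.trans hp
  have : (p ^ 2 - d ^ 2) / p - (p - y) = (p * y - d ^ 2) / p := by field_simp; ring
  rw [this]
  apply div_pos _ hp0
  nlinarith

theorem LL3_pos (hd : 0 < d) (hp : d < p) {y : ℝ} (hy : 0 < y) (hy2 : y < p) : 0 < LL 3 p d y := by
  have hp0 : 0 < p := hd.trans hp
  rcases le_total y d with h | h
  · rw [v_in hd hp hy.le h]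
    have h1 : 0 < p - d := by linarith
    have h2 : 0 < p * d - y ^ 2 := by nlinarith
    positivity
  · rw [v_out hd hp h hy2.le]
    have h1 : 0 < p - y := by linarith
    have h2 := aux_c hd hp h
    positivity

theorem vlog_in (hd : 0 < d) (hp : d < p) {x y : ℝ} (hx : 0 < x) (hxy : x ≤ y) (hy : y ≤ d) :
    -LL 2 p d y * LL 3 p d x ≤ -LL 2 p d x * LL 3 p d y := by
  have hp0 : 0 < p := hd.trans hp
  rw [v_in hd hp hx.le (hxy.trans hy), v_in hd hp (hx.le.trans hxy) hy,
    q_in hd hp hx.le (hxy.trans hy), q_in hd hp (hx.le.trans hxy) hy]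
  have h1 : 0 < p - d := by linarith
  have key : 0 ≤ (y - x) * ((p * d) ^ 2 - p * d * (y - x) ^ 2 + 3 * x ^ 2 * y ^ 2) := by
    apply mul_nonneg (by linarith)
    have h2 : (y - x) ^ 2 ≤ p * d := by nlinarith
    have h3 : p * d * (y - x) ^ 2 ≤ p * d * (p * d) := mul_le_mul_of_nonneg_left h2 (by positivity)
    nlinarith [sq_nonneg (x * y)]
  have e : -((p - d) ^ 3 * (3 * x ^ 2 - p * d) / (24 * p * d)) *
      ((p - d) ^ 3 * y * (p * d - y ^ 2) / (24 * p * d)) -
      -((p - d) ^ 3 * (3 * y ^ 2 - p * d) / (24 * p * d)) *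
      ((p - d) ^ 3 * x * (p * d - x ^ 2) / (24 * p * d)) =
      ((p - d) ^ 3 / (24 * p * d)) ^ 2 *
        ((y - x) * ((p * d) ^ 2 - p * d * (y - x) ^ 2 + 3 * x ^ 2 * y ^ 2)) := by
    field_simp
    ring
  have := mul_nonneg (sq_nonneg ((p - d) ^ 3 / (24 * p * d))) key
  rw [← e] at this
  linarith

theorem vlog_out (hd : 0 < d) (hp : d < p) {x y : ℝ} (hx : d ≤ x) (hxy : x ≤ y) (hy : y < p) :
    -LL 2 p d y * LL 3 p d x ≤ -LL 2 p d x * LL 3 p d y := by
  have hp0 : 0 < p := hd.trans hp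
  rw [v_out hd hp hx (hxy.trans hy.le), v_out hd hp (hx.trans hxy) hy.le,
    q_out hd hp hx (hxy.trans hy.le), q_out hd hp (hx.trans hxy) hy.le]
  have c1 := aux_c hd hp hx
  have c2 := aux_c hd hp (hx.trans hxy)
  set e := (p ^ 2 - d ^ 2) / p with he
  have hX : 0 < p - x := by linarith
  have hY : 0 < p - y := by linarith
  have key : 0 ≤ (y - x) * (3 * (e - (p - x)) * (e - (p - y)) + (p - x) * (p - y)) :=
    mul_nonneg (by linarith) (by positivity)
  have e1 : -((p - x) ^ 2 * (3 * e - 4 * (p - x)) / 24) * ((p - y) ^ 3 * (e - (p - y)) / 24) -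
      -((p - y) ^ 2 * (3 * e - 4 * (p - y)) / 24) * ((p - x) ^ 3 * (e - (p - x)) / 24) =
      (p - x) ^ 2 * (p - y) ^ 2 / 576 *
        ((y - x) * (3 * (e - (p - x)) * (e - (p - y)) + (p - x) * (p - y))) := by
    ring
  have := mul_nonneg (by positivity : 0 ≤ (p - x) ^ 2 * (p - y) ^ 2 / 576) key
  rw [← e1] at this
  linarith

end base

/-- chaining of cross-multiplied ratio inequalities. -/
theorem chain_ineq {A B C a b c : ℝ} (ha : 0 < a) (hb : 0 < b) (hc : 0 < c)
    (h1 : B * a ≤ A * b) (h2 : C * b ≤ B * c) : C * a ≤ A * c := by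
  have h3 : C * a * b ≤ A * c * b := by
    calc C * a * b = (C * b) * a := by ring
      _ ≤ (B * c) * a := mul_le_mul_of_nonneg_right h2 ha.le
      _ = (B * a) * c := by ring
      _ ≤ (A * b) * c := mul_le_mul_of_nonneg_right h1 hc.le
      _ = A * c * b := by ring
  exact le_of_mul_le_mul_right h3 hb

section base2

variable {p d : ℝ}

theorem LL_vlog (hd : 0 < d) (hp : d < p) {x y : ℝ} (hx : 0 < x) (hxy : x ≤ y) (hy : y < p) :
    -LL 2 p d y * LL 3 p d x ≤ -LL 2 p d x * LL 3 p d y := by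
  rcases le_total y d with h1 | h1
  · exact vlog_in hd hp hx hxy h1
  rcases le_total d x with h2 | h2
  · exact vlog_out hd hp h2 hxy hy
  · exact chain_ineq (LL3_pos hd hp hx (lt_of_le_of_lt hxy hy)) (LL3_pos hd hp hd hp)
      (LL3_pos hd hp (lt_of_lt_of_le hx hxy) hy) (vlog_in hd hp hx h2 le_rfl)
      (vlog_out hd hp le_rfl h1 hy)

/-- log-concavity of q in the outer region, on the set where `3e - 4Y > 0` -/
theorem qlog_out (hd : 0 < d) (hp : d < p) {x y : ℝ} (hx : d ≤ x) (hxy : x ≤ y) (hy : y < p)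
    (hqx : 0 ≤ LL 2 p d x) (hqy : 0 ≤ LL 2 p d y) :
    -LL 1 p d y * LL 2 p d x ≤ -LL 1 p d x * LL 2 p d y := by
  have hp0 : 0 < p := hd.trans hp
  rw [q_out hd hp hx (hxy.trans hy.le)] at hqx
  rw [q_out hd hp (hx.trans hxy) hy.le] at hqy
  rw [F_out hd hp hx (hxy.trans hy.le), F_out hd hp (hx.trans hxy) hy.le,
    q_out hd hp hx (hxy.trans hy.le), q_out hd hp (hx.trans hxy) hy.le]
  set e := (p ^ 2 - d ^ 2) / p with he
  have hX : 0 < p - x := by linarith
  have hY : 0 < p - y := by linarith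
  have hx' : 0 ≤ 3 * e - 4 * (p - x) := by
    by_contra h
    have : (p - x) ^ 2 * (3 * e - 4 * (p - x)) < 0 :=
      mul_neg_of_pos_of_neg (by positivity) (not_le.1 h)
    linarith
  have hy' : 0 ≤ 3 * e - 4 * (p - y) := by
    by_contra h
    have : (p - y) ^ 2 * (3 * e - 4 * (p - y)) < 0 :=
      mul_neg_of_pos_of_neg (by positivity) (not_le.1 h)
    linarith
  have key : 0 ≤ (y - x) * ((3 * e - 4 * (p - x)) * (3 * e - 4 * (p - y)) + 8 * ((p - x) * (p - y))) :=
    mul_nonneg (by linarith) (add_nonneg (mul_nonneg hx' hy') (by positivity))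
  have e1 : -((p - x) * (e - 2 * (p - x)) / 4) * ((p - y) ^ 2 * (3 * e - 4 * (p - y)) / 24) -
      -((p - y) * (e - 2 * (p - y)) / 4) * ((p - x) ^ 2 * (3 * e - 4 * (p - x)) / 24) =
      (p - x) * (p - y) / 288 *
        ((y - x) * ((3 * e - 4 * (p - x)) * (3 * e - 4 * (p - y)) + 8 * ((p - x) * (p - y)))) := by
    ring
  have := mul_nonneg (by positivity : 0 ≤ (p - x) * (p - y) / 288) key
  rw [← e1] at this
  linarith

theorem qlog_in (hd : 0 < d) (hp : d < p) {x y : ℝ} (hx : 0 < x) (hxy : x ≤ y) (hy : y ≤ d) :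
    -LL 1 p d y * LL 2 p d x ≤ -LL 1 p d x * LL 2 p d y := by
  have hp0 : 0 < p := hd.trans hp
  rw [F_in hd hp hx.le (hxy.trans hy), F_in hd hp (hx.le.trans hxy) hy,
    q_in hd hp hx.le (hxy.trans hy), q_in hd hp (hx.le.trans hxy) hy]
  have h1 : 0 < p - d := by linarith
  have hy0 : 0 < y := lt_of_lt_of_le hx hxy
  have key : 0 ≤ (y - x) * (3 * x * y + p * d) := mul_nonneg (by linarith) (by positivity)
  have e : -(-((p - d) ^ 3 * x) / (4 * p * d)) * ((p - d) ^ 3 * (3 * y ^ 2 - p * d) / (24 * p * d)) -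
      -(-((p - d) ^ 3 * y) / (4 * p * d)) * ((p - d) ^ 3 * (3 * x ^ 2 - p * d) / (24 * p * d)) =
      ((p - d) ^ 3) ^ 2 / (96 * (p * d) ^ 2) * ((y - x) * (3 * x * y + p * d)) := by
    field_simp
    ring
  have := mul_nonneg (by positivity : 0 ≤ ((p - d) ^ 3) ^ 2 / (96 * (p * d) ^ 2)) key
  rw [← e] at this
  linarith

/-- q is nonpositive before, and positive after `z`. -/
theorem exists_z (hd : 0 < d) (hp : d < p) : ∃ z, 0 < z ∧ z < p ∧
    (∀ x, 0 ≤ x → x ≤ z → LL 2 p d x ≤ 0) ∧ (∀ x, z < x → x < p → 0 < LL 2 p d x) := by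
  have hp0 : 0 < p := hd.trans hp
  have hpd : 0 < p - d := by linarith
  rcases le_total p (3 * d) with h | h
  · -- z = sqrt (p d / 3) ≤ d
    have hs : 0 < p * d / 3 := by positivity
    have hz2 : Real.sqrt (p * d / 3) ^ 2 = p * d / 3 := Real.sq_sqrt hs.le
    have hz0 : 0 < Real.sqrt (p * d / 3) := Real.sqrt_pos.2 hs
    set z := Real.sqrt (p * d / 3) with hz
    have hzd : z ≤ d := by
      apply abs_le_of_sq_le_sq' _ hd.le |>.2
      rw [hz2]; nlinarith
    refine ⟨z, hz0, lt_of_le_of_lt hzd hp, ?_, ?_⟩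
    · intro x hx hxz
      rw [q_in hd hp hx (hxz.trans hzd)]
      have h2 : 3 * x ^ 2 - p * d ≤ 0 := by nlinarith
      have : (p - d) ^ 3 * (3 * x ^ 2 - p * d) ≤ 0 := mul_nonpos_of_nonneg_of_nonpos (by positivity) h2
      exact div_nonpos_of_nonpos_of_nonneg this (by positivity)
    · intro x hx hxp
      rcases le_total x d with h3 | h3
      · rw [q_in hd hp (hz0.trans hx).le h3]
        have h2 : 0 < 3 * x ^ 2 - p * d := by nlinarith
        positivity
      · rw [q_out hd hp h3 hxp.le]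
        have h4 : 0 < p - x := by linarith
        have h5 : 0 < 3 * ((p ^ 2 - d ^ 2) / p) - 4 * (p - x) := by
          have : 3 * ((p ^ 2 - d ^ 2) / p) - 4 * (p - x) = (4 * p * x - p ^ 2 - 3 * d ^ 2) / p := by
            field_simp; ring
          rw [this]
          apply div_pos _ hp0
          -- 4 p x ≥ 4 p d > p^2 + 3 d^2
          have : (p - d) * (3 * d - p) ≥ 0 := mul_nonneg hpd.le (by linarith)
          rcases h3.lt_or_eq with h6 | h6
          · nlinarith
          · -- x = d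
            rcases h.lt_or_eq with h7 | h7
            · nlinarith [mul_pos hpd (by linarith : 0 < 3 * d - p)]
            · -- p = 3 d, z = d
              exfalso
              have : z = d := by
                have : z ^ 2 = d ^ 2 := by rw [hz2, h7]; ring
                exact (sq_eq_sq₀ hz0.le hd.le).1 this
              linarith
        positivity
  · -- z = (p^2+3d^2)/(4p) ≥ d
    set z := (p ^ 2 + 3 * d ^ 2) / (4 * p) with hz
    have hzd : d ≤ z := by
      rw [hz, le_div_iff₀ (by positivity)]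
      nlinarith
    have hzp : z < p := by
      rw [hz, div_lt_iff₀ (by positivity)]
      nlinarith
    have hlin : ∀ x, 3 * ((p ^ 2 - d ^ 2) / p) - 4 * (p - x) = 4 * (x - z) := by
      intro x
      rw [hz]; field_simp; ring
    refine ⟨z, by positivity, hzp, ?_, ?_⟩
    · intro x hx hxz
      rcases le_total x d with h3 | h3
      · rw [q_in hd hp hx h3]
        have h2 : 3 * x ^ 2 - p * d ≤ 0 := by nlinarith
        have : (p - d) ^ 3 * (3 * x ^ 2 - p * d) ≤ 0 := mul_nonpos_of_nonneg_of_nonpos (by positivity) h2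
        exact div_nonpos_of_nonpos_of_nonneg this (by positivity)
      · rw [q_out hd hp h3 (hxz.trans hzp.le), hlin]
        have : (p - x) ^ 2 * (4 * (x - z)) ≤ 0 :=
          mul_nonpos_of_nonneg_of_nonpos (sq_nonneg _) (by linarith)
        linarith
    · intro x hx hxp
      rw [q_out hd hp (hzd.trans hx.le) hxp.le, hlin]
      have h4 : 0 < p - x := by linarith
      have h5 : 0 < x - z := by linarith
      positivity

theorem base_good (hd : 0 < d) (hp : d < p) : ∃ z, Good (LL 3 p d) (LL 2 p d) (LL 1 p d) z p := by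
  obtain ⟨z, hz0, hzp, hneg, hpos⟩ := exists_z hd hp
  refine ⟨z, fun x => LL_hasDerivAt (k := 2) (by norm_num) p d x,
    fun x => LL_hasDerivAt (k := 1) le_rfl p d x, LL_continuous 1 p d, LL3_odd hd hp, hz0, hzp,
    fun x hx hx2 => LL3_pos hd hp hx hx2, fun x hx => LL_far (by norm_num) hd hp hx,
    fun x y hx hxy hy => LL_vlog hd hp hx hxy hy, hneg, hpos, ?_⟩
  intro x y hx hxy hy
  have hqx := hpos x hx (lt_of_le_of_lt hxy hy)
  have hqy := hpos y (lt_of_lt_of_le hx hxy) hy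
  rcases le_total y d with h1 | h1
  · exact qlog_in hd hp (hz0.trans hx) hxy h1
  rcases le_total d x with h2 | h2
  · exact qlog_out hd hp h2 hxy hy hqx.le hqy.le
  · have hqd := hpos d (lt_of_lt_of_le hx h2) hp
    exact chain_ineq hqx hqd hqy (qlog_in hd hp (hz0.trans hx) h2 le_rfl)
      (qlog_out hd hp le_rfl h1 hy hqd.le hqy.le)

end base2

end Pool.Agent.H60.Big
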