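import Pool.Agent.H60.Big.Defs

set_option autoImplicit false

open MeasureTheory Set Filter Topology

namespace Pool.Agent.H60.Big

/-- four point inequality from monotonicity of the logarithmic derivative. -/
theorem four_point {g g' : ℝ → ℝ} {α β : ℝ} (hg : ∀ x, HasDerivAt g (g' x) x)
    (hpos : ∀ x, α < x → x < β → 0 < g x)
    (hlog : ∀ x y, α < x → x ≤ y → y < β → g' y * g x ≤ g' x * g y)
    {x y s : ℝ} (hx : α < x) (hxy : x ≤ y) (hs : 0 ≤ s) (hy : y + s < β) :
    g x * g (y + s) ≤ g (x + s) * g y := by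
  -- derivative of u ↦ log g(u+s) - log g(u) is nonpositive on [x,y]
  have hanti : AntitoneOn (fun u => Real.log (g (u + s)) - Real.log (g u)) (Icc x y) := by
    have hd : ∀ u ∈ Icc x y, HasDerivAt (fun u => Real.log (g (u + s)) - Real.log (g u))
        (g' (u + s) / g (u + s) - g' u / g u) u := by
      intro u hu
      have p1 : 0 < g (u + s) := hpos _ (by linarith [hu.1]) (by linarith [hu.2])
      have p2 : 0 < g u := hpos _ (by linarith [hu.1]) (by linarith [hu.2])
      have h1 : HasDerivAt (fun u => g (u + s)) (g' (u + s)) u := (hg (u + s)).comp_add_const u s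
      exact (h1.log p1.ne').sub ((hg u).log p2.ne')
    apply antitoneOn_of_deriv_nonpos (convex_Icc x y)
    · intro u hu
      exact (hd u hu).continuousAt.continuousWithinAt
    · intro u hu
      rw [interior_Icc] at hu
      exact (hd u (Ioo_subset_Icc_self hu)).differentiableAt.differentiableWithinAt
    · intro u hu
      rw [interior_Icc] at hu
      rw [(hd u (Ioo_subset_Icc_self hu)).deriv]
      have p1 : 0 < g (u + s) := hpos _ (by linarith [hu.1]) (by linarith [hu.2])
      have p2 : 0 < g u := hpos _ (by linarith [hu.1]) (by linarith [hu.2])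
      rw [sub_nonpos, div_le_div_iff₀ p1 p2]
      exact hlog u (u + s) (by linarith [hu.1]) (by linarith) (by linarith [hu.2])
  have h := hanti (left_mem_Icc.2 hxy) (right_mem_Icc.2 hxy) hxy
  simp only at h
  have p1 : 0 < g x := hpos _ hx (by linarith)
  have p2 : 0 < g (x + s) := hpos _ (by linarith) (by linarith)
  have p3 : 0 < g y := hpos _ (by linarith) (by linarith)
  have p4 : 0 < g (y + s) := hpos _ (by linarith) hy
  have h2 : Real.log (g x * g (y + s)) ≤ Real.log (g (x + s) * g y) := by
    rw [Real.log_mul p1.ne' p4.ne', Real.log_mul p2.ne' p3.ne']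
    linarith
  exact (Real.log_le_log_iff (by positivity) (by positivity)).1 h2

namespace Good

variable {v q F : ℝ → ℝ} {z L : ℝ}

theorem L_pos (h : Good v q F z L) : 0 < L := h.z_pos.trans h.z_lt

theorem v_cont (h : Good v q F z L) : Continuous v :=
  continuous_iff_continuousAt.2 fun x => (h.hv x).continuousAt

theorem q_cont (h : Good v q F z L) : Continuous q :=
  continuous_iff_continuousAt.2 fun x => (h.hq x).continuousAt

theorem v_zero (h : Good v q F z L) : v 0 = 0 := by
  have := h.odd 0
  rw [neg_zero] at this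
  linarith

theorem v_nonneg (h : Good v q F z L) {x : ℝ} (hx : 0 ≤ x) : 0 ≤ v x := by
  rcases hx.lt_or_eq with h1 | h1
  · rcases lt_or_ge x L with h2 | h2
    · exact (h.pos x h1 h2).le
    · rw [h.supp x h2]
  · rw [← h1, h.v_zero]

theorem q_supp (h : Good v q F z L) {x : ℝ} (hx : L ≤ x) : q x = 0 := by
  -- v vanishes on [L,∞), so its derivative vanishes on (L,∞) and by continuity at L
  have key : ∀ y, L < y → q y = 0 := by
    intro y hy
    have h1 : HasDerivAt v 0 y := by
      refine (hasDerivAt_const y (0 : ℝ)).congr_of_eventuallyEq ?_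
      filter_upwards [Ioi_mem_nhds hy] with w hw
      exact h.supp w (le_of_lt hw)
    have := (h.hv y).unique h1
    linarith
  rcases hx.lt_or_eq with h1 | h1
  · exact key x h1
  · subst h1
    have hc : Tendsto q (𝓝[>] L) (𝓝 (q L)) := h.q_cont.continuousAt.tendsto.mono_left nhdsWithin_le_nhds
    have h0 : Tendsto q (𝓝[>] L) (𝓝 0) := by
      refine Tendsto.congr' ?_ tendsto_const_nhds
      filter_upwards [self_mem_nhdsWithin] with y hy
      exact (key y hy).symm
    exact tendsto_nhds_unique hc h0

theorem F_supp (h : Good v q F z L) {x : ℝ} (hx : L ≤ x) : F x = 0 := by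
  have key : ∀ y, L < y → F y = 0 := by
    intro y hy
    have h1 : HasDerivAt q 0 y := by
      refine (hasDerivAt_const y (0 : ℝ)).congr_of_eventuallyEq ?_
      filter_upwards [Ioi_mem_nhds hy] with w hw
      exact h.q_supp (le_of_lt hw)
    have := (h.hq y).unique h1
    linarith
  rcases hx.lt_or_eq with h1 | h1
  · exact key x h1
  · subst h1
    have hc : Tendsto F (𝓝[>] L) (𝓝 (F L)) := h.hF.continuousAt.tendsto.mono_left nhdsWithin_le_nhds
    have h0 : Tendsto F (𝓝[>] L) (𝓝 0) := by
      refine Tendsto.congr' ?_ tendsto_const_nhds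
      filter_upwards [self_mem_nhdsWithin] with y hy
      exact (key y hy).symm
    exact tendsto_nhds_unique hc h0

theorem q_nonneg (h : Good v q F z L) {x : ℝ} (hx : z < x) : 0 ≤ q x := by
  rcases lt_or_ge x L with h2 | h2
  · exact (h.qpos x hx h2).le
  · rw [h.q_supp h2]

theorem q_z (h : Good v q F z L) : q z = 0 := by
  apply le_antisymm (h.qneg z h.z_pos.le le_rfl)
  have hc : Tendsto q (𝓝[>] z) (𝓝 (q z)) := h.q_cont.continuousAt.tendsto.mono_left nhdsWithin_le_nhds
  refine ge_of_tendsto hc ?_
  filter_upwards [self_mem_nhdsWithin] with y hy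
  exact h.q_nonneg hy

theorem q_nonneg' (h : Good v q F z L) {x : ℝ} (hx : z ≤ x) : 0 ≤ q x := by
  rcases hx.lt_or_eq with h1 | h1
  · exact h.q_nonneg h1
  · rw [← h1, h.q_z]

theorem q_even (h : Good v q F z L) (x : ℝ) : q (-x) = q x := by
  have h1 : HasDerivAt (fun x => v (-x)) (-(-q (-x))) x := by
    have h3 : HasDerivAt (fun x : ℝ => -x) (-1) x := hasDerivAt_neg x
    exact ((h.hv (-x)).comp x h3).congr_deriv (by ring)
  have h2 : HasDerivAt (fun x => v (-x)) (-(-q x)) x := by
    have : (fun x => v (-x)) = fun x => - v x := funext h.odd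
    rw [this]
    exact (h.hv x).neg
  have := h1.unique h2
  linarith

/-- four point inequality for `v` -/
theorem v_four (h : Good v q F z L) {x y s : ℝ} (hx : 0 ≤ x) (hxy : x ≤ y) (hs : 0 ≤ s) :
    v x * v (y + s) ≤ v (x + s) * v y := by
  have hy0 : 0 ≤ y := hx.trans hxy
  have hr : 0 ≤ v (x + s) * v y := mul_nonneg (h.v_nonneg (by linarith)) (h.v_nonneg hy0)
  rcases hx.lt_or_eq with h1 | h1
  · rcases lt_or_ge (y + s) L with h2 | h2
    · exact four_point (g' := fun x => -q x) h.hv h.pos
        (fun a b h1 h2 h3 => h.vlog a b h1 h2 h3) h1 hxy hs h2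
    · rw [h.supp _ h2, mul_zero]; exact hr
  · rw [← h1, h.v_zero, zero_mul, zero_add]
    rw [← h1, zero_add] at hr
    exact hr

/-- four point inequality for `q` beyond `z` -/
theorem q_four (h : Good v q F z L) {x y s : ℝ} (hx : z ≤ x) (hxy : x ≤ y) (hs : 0 ≤ s) :
    q x * q (y + s) ≤ q (x + s) * q y := by
  have hr : 0 ≤ q (x + s) * q y := mul_nonneg (h.q_nonneg' (by linarith)) (h.q_nonneg' (by linarith))
  rcases hx.lt_or_eq with h1 | h1
  · rcases lt_or_ge (y + s) L with h2 | h2
    · exact four_point (g' := fun x => -F x) h.hq h.qpos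
        (fun a b h1 h2 h3 => h.qlog a b h1 h2 h3) h1 hxy hs h2
    · rw [h.q_supp h2, mul_zero]; exact hr
  · rw [← h1, h.q_z, zero_mul]
    rw [← h1] at hr
    exact hr

end Good

end Pool.Agent.H60.Big
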