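import Mathlib

set_option autoImplicit false

open MeasureTheory Set Filter Topology

namespace Pool.Agent.H60.Big

/-- The class of functions used: `v` is odd, positive and log-concave on `(0,L)`, zero beyond `L`,
`q = -v'` is nonpositive on `[0,z]` and positive and log-concave on `(z,L)`; `F = v''`. -/
structure Good (v q F : ℝ → ℝ) (z L : ℝ) : Prop where
  hv : ∀ x, HasDerivAt v (-q x) x
  hq : ∀ x, HasDerivAt q (-F x) x
  hF : Continuous F
  odd : ∀ x, v (-x) = - v x
  z_pos : 0 < z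
  z_lt : z < L
  pos : ∀ x, 0 < x → x < L → 0 < v x
  supp : ∀ x, L ≤ x → v x = 0
  vlog : ∀ x y, 0 < x → x ≤ y → y < L → -q y * v x ≤ -q x * v y
  qneg : ∀ x, 0 ≤ x → x ≤ z → q x ≤ 0
  qpos : ∀ x, z < x → x < L → 0 < q x
  qlog : ∀ x y, z < x → x ≤ y → y < L → -F y * q x ≤ -F x * q y

/-- average over the window of half-width `b`. -/
noncomputable def wavg (b : ℝ) (v : ℝ → ℝ) (x : ℝ) : ℝ := (∫ s in (x - b)..(x + b), v s) / (2 * b)

end Pool.Agent.H60.Big
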