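import Pool.Agent.H60.Big.Base
import Pool.Agent.H64.Slab.Schur

set_option autoImplicit false

open MeasureTheory Set Filter Topology

namespace Pool.Agent.H60.Big

open Pool.Agent.H64.Slab Pool.Agent.H60.Slab

theorem base_moments {p d : ℝ} (hd : 0 < d) (hp : d < p) :
    mom1 (LL 3 p d) p = 4 / 45 * ((p ^ 2 - d ^ 2) / 4) ^ 3 ∧
    mom3 (LL 3 p d) p = 4 / 105 * ((p ^ 2 + d ^ 2) / 2) * ((p ^ 2 - d ^ 2) / 4) ^ 3 := by
  have hp0 : 0 < p := hd.trans hp
  obtain ⟨z, hG⟩ := base_good hd hp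
  have hc := hG.v_cont
  have hi : ∀ (k : ℕ) (a c : ℝ), IntervalIntegrable (fun x => x ^ k * LL 3 p d x) volume a c :=
    fun k a c => ((continuous_pow k).mul hc).intervalIntegrable a c
  have key : ∀ k : ℕ, ∫ x in (0 : ℝ)..p, x ^ k * LL 3 p d x =
      (∫ x in (0 : ℝ)..d, x ^ k * ((p - d) ^ 3 * x * (p * d - x ^ 2) / (24 * p * d))) +
      ∫ x in d..p, x ^ k * ((p - x) ^ 3 * ((p ^ 2 - d ^ 2) / p - (p - x)) / 24) := by
    intro k
    rw [← intervalIntegral.integral_add_adjacent_intervals (hi k 0 d) (hi k d p)]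
    congr 1
    · apply intervalIntegral.integral_congr
      intro x hx
      rw [uIcc_of_le hd.le] at hx
      simp only
      rw [v_in hd hp hx.1 hx.2]
    · apply intervalIntegral.integral_congr
      intro x hx
      rw [uIcc_of_le hp.le] at hx
      simp only
      rw [v_out hd hp hx.1 hx.2]
  have poly : ∀ (a c A0 A1 A2 A3 A4 A5 A6 A7 : ℝ), ∫ x in a..c, (A0 + A1 * x + A2 * x ^ 2 + A3 * x ^ 3 +
      A4 * x ^ 4 + A5 * x ^ 5 + A6 * x ^ 6 + A7 * x ^ 7) =
      (A0 * c + A1 * c ^ 2 / 2 + A2 * c ^ 3 / 3 + A3 * c ^ 4 / 4 + A4 * c ^ 5 / 5 + A5 * c ^ 6 / 6 +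
        A6 * c ^ 7 / 7 + A7 * c ^ 8 / 8) -
      (A0 * a + A1 * a ^ 2 / 2 + A2 * a ^ 3 / 3 + A3 * a ^ 4 / 4 + A4 * a ^ 5 / 5 + A5 * a ^ 6 / 6 +
        A6 * a ^ 7 / 7 + A7 * a ^ 8 / 8) := by
    intro a c A0 A1 A2 A3 A4 A5 A6 A7
    apply intervalIntegral.integral_eq_sub_of_hasDerivAt
      (f := fun x => A0 * x + A1 * x ^ 2 / 2 + A2 * x ^ 3 / 3 + A3 * x ^ 4 / 4 + A4 * x ^ 5 / 5 +
        A5 * x ^ 6 / 6 + A6 * x ^ 7 / 7 + A7 * x ^ 8 / 8)
    · intro x _
      have h := (((((((((hasDerivAt_id x).const_mul A0).add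
        (((hasDerivAt_pow 2 x).const_mul A1).div_const 2)).add
        (((hasDerivAt_pow 3 x).const_mul A2).div_const 3)).add
        (((hasDerivAt_pow 4 x).const_mul A3).div_const 4)).add
        (((hasDerivAt_pow 5 x).const_mul A4).div_const 5)).add
        (((hasDerivAt_pow 6 x).const_mul A5).div_const 6)).add
        (((hasDerivAt_pow 7 x).const_mul A6).div_const 7)).add
        (((hasDerivAt_pow 8 x).const_mul A7).div_const 8))
      refine h.congr_deriv ?_
      norm_num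
      ring
    · apply Continuous.intervalIntegrable
      fun_prop
  constructor
  · unfold mom1
    rw [hG.half_mom (fun x => x) continuous_id (fun x => rfl)]
    have k1 := key 1
    simp only [pow_one] at k1
    rw [k1]
    have e1 : ∀ x : ℝ, x * ((p - d) ^ 3 * x * (p * d - x ^ 2) / (24 * p * d)) =
        0 + 0 * x + ((p - d) ^ 3 / 24) * x ^ 2 + 0 * x ^ 3 + (-(p - d) ^ 3 / (24 * p * d)) * x ^ 4 +
          0 * x ^ 5 + 0 * x ^ 6 + 0 * x ^ 7 := by
      intro x; field_simp; ring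
    set E := (p ^ 2 - d ^ 2) / p with hE
    have e2 : ∀ x : ℝ, x * ((p - x) ^ 3 * (E - (p - x)) / 24) =
        0 + ((p ^ 3 * (E - p)) / 24) * x + ((p ^ 3 - 3 * p ^ 2 * (E - p)) / 24) * x ^ 2 +
        ((3 * p * (E - p) - 3 * p ^ 2) / 24) * x ^ 3 + ((3 * p - (E - p)) / 24) * x ^ 4 +
        (-1 / 24) * x ^ 5 + 0 * x ^ 6 + 0 * x ^ 7 := by
      intro x; ring
    simp only [e1, e2]
    rw [poly, poly, hE]
    field_simp
    ring
  · unfold mom3
    rw [hG.half_mom (fun x => x ^ 3) (by fun_prop) (fun x => by ring)]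
    rw [key 3]
    have e1 : ∀ x : ℝ, x ^ 3 * ((p - d) ^ 3 * x * (p * d - x ^ 2) / (24 * p * d)) =
        0 + 0 * x + 0 * x ^ 2 + 0 * x ^ 3 + ((p - d) ^ 3 / 24) * x ^ 4 + 0 * x ^ 5 +
          (-(p - d) ^ 3 / (24 * p * d)) * x ^ 6 + 0 * x ^ 7 := by
      intro x; field_simp; ring
    set E := (p ^ 2 - d ^ 2) / p with hE
    have e2 : ∀ x : ℝ, x ^ 3 * ((p - x) ^ 3 * (E - (p - x)) / 24) =
        0 + 0 * x + 0 * x ^ 2 + ((p ^ 3 * (E - p)) / 24) * x ^ 3 +
        ((p ^ 3 - 3 * p ^ 2 * (E - p)) / 24) * x ^ 4 +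
        ((3 * p * (E - p) - 3 * p ^ 2) / 24) * x ^ 5 + ((3 * p - (E - p)) / 24) * x ^ 6 +
        (-1 / 24) * x ^ 7 := by
      intro x; ring
    simp only [e1, e2]
    rw [poly, poly, hE]
    field_simp
    ring

/-- positivity for iterated averages -/
theorem iterate_nonneg : ∀ (m : ℕ) (b : Fin m → ℝ) (v q F : ℝ → ℝ) (z L t : ℝ),
    Good v q F z L → (∀ j, 0 < b j) → (∀ j, b j ≤ L) → 0 < t →
    10 * (mom3 v L + (∑ j, b j ^ 2) * mom1 v L) ≤ 3 * t ^ 2 * mom1 v L →
    0 ≤ ∫ x, F (t + dot x b) ∂(cubeM m) := by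
  intro m
  induction m with
  | zero =>
    intro b v q F z L t hG _ _ ht h
    rw [integral_cube_zero _ (F t) (by intro x; rw [dot_zero_dim, add_zero])]
    apply hG.final ht
    simpa using h
  | succ m ih =>
    intro b v q F z L t hG hb hbL ht h
    rw [integral_dot_succ 0 hG.hF b t]
    obtain ⟨z', hG'⟩ := hG.avg (hb 0) (hbL 0)
    have e : (fun x' : Fin m → ℝ => ∫ u in (-1 : ℝ)..1,
        F ((t + dot x' (fun j => b ((0 : Fin (m + 1)).succAbove j))) + u * b 0)) =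
        fun x' => 2 * wavg (b 0) F (t + dot x' (fun j => b ((0 : Fin (m + 1)).succAbove j))) := by
      ext x'
      rw [wavg_eq (hb 0)]
      have : (fun u : ℝ => F ((t + dot x' (fun j => b ((0 : Fin (m + 1)).succAbove j))) + u * b 0)) =
          fun u => F ((t + dot x' (fun j => b ((0 : Fin (m + 1)).succAbove j))) + b 0 * u) := by
        ext u; rw [mul_comm u]
      rw [this]; ring
    rw [e, integral_const_mul]
    apply mul_nonneg (by norm_num)
    apply ih (fun j => b ((0 : Fin (m + 1)).succAbove j)) _ _ _ z' (L + b 0) t hG'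
      (fun j => hb _) (fun j => by linarith [hbL ((0 : Fin (m + 1)).succAbove j), hb 0]) ht
    rw [mom1_avg hG.v_cont hG.L_pos.le hG.supp' (hb 0), mom3_avg hG.v_cont hG.L_pos.le hG.supp' (hb 0)]
    rw [Fin.sum_univ_succAbove _ 0] at h
    linarith

theorem WW_hasDerivAt {m : ℕ} (b : Fin m → ℝ) (hb : ∀ j, 0 < b j) {k : ℕ} (hk : 1 ≤ k) (y : ℝ) :
    HasDerivAt (WW b (k + 1)) (WW b k y) y := by
  have e1 : WW b (k + 1) = fun y => (∏ j, b j)⁻¹ * cdiff b (ptr (k + m + 1)) y := by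
    ext y
    rw [WW_eq b hb (by omega), show k + 1 + m = k + m + 1 by ring]
  rw [e1, WW_eq b hb hk]
  exact (cdiff_hasDerivAt b (fun y => ptr_hasDerivAt (by omega) y) y).const_mul _

theorem RR_hasDerivAt {m : ℕ} (b : Fin m → ℝ) (hb : ∀ j, 0 < b j) (t τ : ℝ) :
    HasDerivAt (RR b t) (WW b 1 (τ - t) - WW b 1 (-τ - t)) τ := by
  unfold RR
  have h1 := (WW_hasDerivAt b hb (k := 1) le_rfl (τ - t)).comp_sub_const τ t
  have h3 : HasDerivAt (fun x : ℝ => -x - t) (-1) τ := by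
    simpa using (hasDerivAt_neg τ).sub_const t
  have h2 := (WW_hasDerivAt b hb (k := 1) le_rfl (-τ - t)).comp τ h3
  refine (h1.add h2).congr_deriv ?_
  ring

theorem WW_integrable {m : ℕ} (b : Fin m → ℝ) (k : ℕ) (y : ℝ) :
    Integrable (fun x : Fin m → ℝ => ptr k (y + dot x b)) (cubeM m) :=
  integrable_cube_of_continuous ((ptr_continuous k).comp (continuous_const.add (continuous_dot _)))

/-- the pair functional of `RR` is the average of `LL 1`. -/
theorem Lam_eq {m : ℕ} (b : Fin m → ℝ) (t p d : ℝ) :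
    (p ^ 2 - d ^ 2) / 4 * ((WW b 1 (p - t) - WW b 1 (-p - t)) / p +
        (WW b 1 (d - t) - WW b 1 (-d - t)) / d) - (RR b t p - RR b t d) =
      ∫ x, LL 1 p d (t + dot x b) ∂(cubeM m) := by
  have hcube := cube_neg m b (LL 1 p d) (LL_continuous 1 p d) t
  rw [← hcube]
  simp only [dot_neg']
  unfold LL RR WW
  have i1 : ∀ k : ℕ, ∀ e : ℝ, Integrable (fun x : Fin m → ℝ => ptr k (e - (t + -dot x b))) (cubeM m) := by
    intro k e
    apply integrable_cube_of_continuous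
    have h1 := ptr_continuous k
    have h2 := continuous_dot (n := m) b
    fun_prop
  have e1 : ∀ k : ℕ, ∀ e : ℝ, ∫ x, ptr k (e - t + dot x b) ∂(cubeM m) =
      ∫ x, ptr k (e - (t + -dot x b)) ∂(cubeM m) := by
    intro k e
    congr 1
    ext x
    congr 1
    ring
  simp only [e1]
  rw [integral_sub, integral_const_mul, integral_add, integral_div, integral_div, integral_sub,
    integral_sub, integral_sub, integral_add, integral_add]
  all_goals first
    | exact i1 _ _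
    | exact (i1 _ _).add (i1 _ _)
    | exact ((i1 _ _).sub (i1 _ _)).div_const _
    | exact ((((i1 _ _).sub (i1 _ _)).div_const _).add (((i1 _ _).sub (i1 _ _)).div_const _)).const_mul _
    | exact (((i1 _ _).add (i1 _ _)).sub ((i1 _ _).add (i1 _ _)))

end Pool.Agent.H60.Big
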