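import Pool.Agent.H60.Big.Step

set_option autoImplicit false

open MeasureTheory Set Filter Topology

namespace Pool.Agent.H60.Big

theorem wavg_eq {v : ℝ → ℝ} {b : ℝ} (hb : 0 < b) (x : ℝ) :
    wavg b v x = 1 / 2 * ∫ u in (-1 : ℝ)..1, v (x + b * u) := by
  unfold wavg
  have h := intervalIntegral.integral_comp_add_mul (a := -1) (b := 1) v hb.ne' x
  rw [h]
  simp only [mul_neg, mul_one, smul_eq_mul]
  rw [← sub_eq_add_neg]
  field_simp

theorem int_supp {v : ℝ → ℝ} {L : ℝ} (hc : Continuous v) (hs : ∀ x, L ≤ |x| → v x = 0)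
    (g : ℝ → ℝ) (hg : Continuous g) {A B : ℝ} (hL : 0 ≤ L) (hA : A ≤ -L) (hB : L ≤ B) :
    ∫ x in A..B, g x * v x = ∫ x in (-L)..L, g x * v x := by
  have hi : ∀ a c, IntervalIntegrable (fun x => g x * v x) volume a c := fun a c =>
    (hg.mul hc).intervalIntegrable a c
  have z1 : ∫ x in A..(-L), g x * v x = 0 := by
    rw [← intervalIntegral.integral_zero (a := A) (b := -L) (μ := volume) (E := ℝ)]
    apply intervalIntegral.integral_congr
    intro s hs'
    rw [uIcc_of_le hA] at hs'
    simp only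
    rw [hs s (by rw [abs_of_nonpos (by linarith [hs'.2])]; linarith [hs'.2]), mul_zero]
  have z2 : ∫ x in L..B, g x * v x = 0 := by
    rw [← intervalIntegral.integral_zero (a := L) (b := B) (μ := volume) (E := ℝ)]
    apply intervalIntegral.integral_congr
    intro s hs'
    rw [uIcc_of_le hB] at hs'
    simp only
    rw [hs s (by rw [abs_of_nonneg (by linarith [hs'.1])]; linarith [hs'.1]), mul_zero]
  rw [← intervalIntegral.integral_add_adjacent_intervals (hi A (-L)) (hi (-L) B),
    ← intervalIntegral.integral_add_adjacent_intervals (hi (-L) L) (hi L B), z1, z2]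
  ring

theorem intOn_rect {G : ℝ → ℝ → ℝ} (h : Continuous (Function.uncurry G)) (a b c d : ℝ) :
    IntegrableOn (Function.uncurry G) (uIoc a b ×ˢ uIoc c d) :=
  (h.continuousOn.integrableOn_compact (isCompact_uIcc.prod isCompact_uIcc)).mono_set
    (prod_mono uIoc_subset_uIcc uIoc_subset_uIcc)

theorem win_moment {v : ℝ → ℝ} {L b : ℝ} (hc : Continuous v) (hL : 0 ≤ L)
    (hs : ∀ x, L ≤ |x| → v x = 0) (hb : 0 < b) (g : ℝ → ℝ) (hg : Continuous g) :
    ∫ x in (-(L + b))..(L + b), g x * wavg b v x =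
      ∫ x in (-L)..L, (1 / 2 * ∫ u in (-1 : ℝ)..1, g (x - b * u)) * v x := by
  have e1 : ∀ x, g x * wavg b v x = ∫ u in (-1 : ℝ)..1, 1 / 2 * (g x * v (x + b * u)) := by
    intro x
    rw [wavg_eq hb, intervalIntegral.integral_const_mul, intervalIntegral.integral_const_mul]
    ring
  simp only [e1]
  rw [intervalIntegral_intervalIntegral_swap]
  · have e2 : ∀ u ∈ uIcc (-1 : ℝ) 1, ∫ x in (-(L + b))..(L + b), 1 / 2 * (g x * v (x + b * u)) =
        ∫ x in (-L)..L, 1 / 2 * (g (x - b * u) * v x) := by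
      intro u hu
      rw [uIcc_of_le (by norm_num)] at hu
      rw [intervalIntegral.integral_const_mul, intervalIntegral.integral_const_mul]
      congr 1
      have h3 := intervalIntegral.integral_comp_add_right (a := -(L + b)) (b := L + b)
        (fun x => g (x - b * u) * v x) (b * u)
      simp only [add_sub_cancel_right] at h3
      rw [h3]
      have hbu1 : b * u ≤ b := by nlinarith [hu.2]
      have hbu2 : -b ≤ b * u := by nlinarith [hu.1]
      exact int_supp hc hs (fun x => g (x - b * u)) (by fun_prop) hL (by linarith) (by linarith)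
    rw [intervalIntegral.integral_congr e2, intervalIntegral_intervalIntegral_swap]
    · apply intervalIntegral.integral_congr
      intro x _
      simp only
      rw [intervalIntegral.integral_const_mul, intervalIntegral.integral_mul_const]
      ring
    · apply intOn_rect
      show Continuous fun p : ℝ × ℝ => 1 / 2 * (g (p.2 - b * p.1) * v p.2)
      fun_prop
  · apply intOn_rect
    show Continuous fun p : ℝ × ℝ => 1 / 2 * (g p.1 * v (p.1 + b * p.2))
    fun_prop

theorem moment_x (b x : ℝ) : 1 / 2 * ∫ u in (-1 : ℝ)..1, (x - b * u) = x := by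
  rw [intervalIntegral.integral_sub, intervalIntegral.integral_const_mul, integral_id]
  · simp only [intervalIntegral.integral_const, smul_eq_mul]
    ring
  all_goals apply Continuous.intervalIntegrable; fun_prop

theorem moment_x3 (b x : ℝ) : 1 / 2 * ∫ u in (-1 : ℝ)..1, (x - b * u) ^ 3 = x ^ 3 + b ^ 2 * x := by
  have e : (fun u : ℝ => (x - b * u) ^ 3) = fun u => x ^ 3 + (-3 * x ^ 2 * b) * u +
      (3 * x * b ^ 2) * u ^ 2 + (-b ^ 3) * u ^ 3 := by
    ext u; ring
  have h1 : ∫ u in (-1 : ℝ)..1, (-3 * x ^ 2 * b) * u = 0 := by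
    rw [intervalIntegral.integral_const_mul, integral_id]; norm_num
  have h2 : ∫ u in (-1 : ℝ)..1, (3 * x * b ^ 2) * u ^ 2 = (3 * x * b ^ 2) * (2 / 3) := by
    rw [intervalIntegral.integral_const_mul, integral_pow]; norm_num
  have h3 : ∫ u in (-1 : ℝ)..1, (-b ^ 3) * u ^ 3 = 0 := by
    rw [intervalIntegral.integral_const_mul, integral_pow]; norm_num
  rw [e, intervalIntegral.integral_add, intervalIntegral.integral_add,
    intervalIntegral.integral_add, h1, h2, h3]
  · simp only [intervalIntegral.integral_const, smul_eq_mul]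
    ring
  all_goals apply Continuous.intervalIntegrable; fun_prop

/-- first and third moments -/
noncomputable def mom1 (v : ℝ → ℝ) (L : ℝ) : ℝ := ∫ x in (-L)..L, x * v x
noncomputable def mom3 (v : ℝ → ℝ) (L : ℝ) : ℝ := ∫ x in (-L)..L, x ^ 3 * v x

theorem mom1_avg {v : ℝ → ℝ} {L b : ℝ} (hc : Continuous v) (hL : 0 ≤ L)
    (hs : ∀ x, L ≤ |x| → v x = 0) (hb : 0 < b) : mom1 (wavg b v) (L + b) = mom1 v L := by
  unfold mom1
  rw [win_moment hc hL hs hb (fun x => x) continuous_id]
  simp only [moment_x]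

theorem mom3_avg {v : ℝ → ℝ} {L b : ℝ} (hc : Continuous v) (hL : 0 ≤ L)
    (hs : ∀ x, L ≤ |x| → v x = 0) (hb : 0 < b) :
    mom3 (wavg b v) (L + b) = mom3 v L + b ^ 2 * mom1 v L := by
  unfold mom3 mom1
  rw [win_moment hc hL hs hb (fun x => x ^ 3) (by fun_prop)]
  simp only [moment_x3]
  rw [← intervalIntegral.integral_const_mul, ← intervalIntegral.integral_add]
  · apply intervalIntegral.integral_congr
    intro x _
    simp only
    ring
  all_goals apply Continuous.intervalIntegrable; fun_prop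

namespace Good

variable {v q F : ℝ → ℝ} {z L : ℝ}

theorem supp' (h : Good v q F z L) (x : ℝ) (hx : L ≤ |x|) : v x = 0 := by
  rcases le_total 0 x with h1 | h1
  · rw [abs_of_nonneg h1] at hx
    exact h.supp x hx
  · rw [abs_of_nonpos h1] at hx
    have := h.odd x
    rw [h.supp (-x) hx] at this
    linarith

/-- integration by parts -/
theorem by_parts_v (h : Good v q F z L) {g g' : ℝ → ℝ} (hg : ∀ x, HasDerivAt g (g' x) x)
    (hc : Continuous g') {a c : ℝ} : ∫ x in a..c, g x * q x =
      (∫ x in a..c, g' x * v x) - (g c * v c - g a * v a) := by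
  have h1 := intervalIntegral.integral_mul_deriv_eq_deriv_mul (a := a) (b := c) (u := g) (v := v)
    (u' := g') (v' := fun x => -q x) (fun x _ => hg x) (fun x _ => h.hv x)
    (hc.intervalIntegrable _ _) (h.q_cont.neg.intervalIntegrable _ _)
  simp only [mul_neg, intervalIntegral.integral_neg] at h1
  linarith

theorem by_parts_q (h : Good v q F z L) {g g' : ℝ → ℝ} (hg : ∀ x, HasDerivAt g (g' x) x)
    (hc : Continuous g') {a c : ℝ} : ∫ x in a..c, g x * F x =
      (∫ x in a..c, g' x * q x) - (g c * q c - g a * q a) := by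
  have h1 := intervalIntegral.integral_mul_deriv_eq_deriv_mul (a := a) (b := c) (u := g) (v := q)
    (u' := g') (v' := fun x => -F x) (fun x _ => hg x) (fun x _ => h.hq x)
    (hc.intervalIntegrable _ _) (h.hF.neg.intervalIntegrable _ _)
  simp only [mul_neg, intervalIntegral.integral_neg] at h1
  linarith

theorem half_mom (h : Good v q F z L) (g : ℝ → ℝ) (hg : Continuous g) (hodd : ∀ x, g (-x) = - g x) :
    ∫ x in (-L)..L, g x * v x = 2 * ∫ x in (0 : ℝ)..L, g x * v x := by
  have hi : ∀ a c, IntervalIntegrable (fun x => g x * v x) volume a c := fun a c =>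
    (hg.mul h.v_cont).intervalIntegrable a c
  have h1 := intervalIntegral.integral_comp_neg (a := -L) (b := 0) (fun x => g x * v x)
  simp only [h.odd, hodd, neg_neg, neg_zero, neg_mul_neg] at h1
  rw [← intervalIntegral.integral_add_adjacent_intervals (hi (-L) 0) (hi 0 L), h1]
  ring

/-- The decisive inequality. -/
theorem final (h : Good v q F z L) {t : ℝ} (ht0 : 0 < t)
    (ht : 10 * mom3 v L ≤ 3 * t ^ 2 * mom1 v L) : 0 ≤ F t := by
  have hL := h.L_pos
  set n1 := ∫ x in (0 : ℝ)..L, x * v x with hn1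
  set n3 := ∫ x in (0 : ℝ)..L, x ^ 3 * v x with hn3
  have e1 : mom1 v L = 2 * n1 := h.half_mom (fun x => x) continuous_id (fun x => rfl)
  have e3 : mom3 v L = 2 * n3 := h.half_mom (fun x => x ^ 3) (by fun_prop) (fun x => by ring)
  rw [e1, e3] at ht
  have n1pos : 0 < n1 := by
    apply intervalIntegral.intervalIntegral_pos_of_pos_on
      ((continuous_id.mul h.v_cont).intervalIntegrable _ _) _ hL
    intro x hx
    exact mul_pos hx.1 (h.pos x hx.1 hx.2)
  have n3pos : 0 < n3 := by
    apply intervalIntegral.intervalIntegral_pos_of_pos_on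
      (((continuous_pow 3).mul h.v_cont).intervalIntegrable _ _) _ hL
    intro x hx
    exact mul_pos (pow_pos hx.1 3) (h.pos x hx.1 hx.2)
  by_contra hcon
  have hFt : F t < 0 := not_le.1 hcon
  have htL : t < L := by
    by_contra hc
    rw [h.F_supp (not_lt.1 hc)] at hFt
    exact lt_irrefl _ hFt
  -- (i) z^2 n1 ≤ 2 n3
  have hz2 : z ^ 2 * n1 ≤ 2 * n3 := by
    have hbp := h.by_parts_v (g := fun x => x ^ 4 - z ^ 2 * x ^ 2)
      (g' := fun x => 4 * x ^ 3 - z ^ 2 * (2 * x)) (a := 0) (c := L) (fun x => by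
        have h1 := (hasDerivAt_pow 4 x).sub ((hasDerivAt_pow 2 x).const_mul (z ^ 2))
        refine h1.congr_deriv ?_
        norm_num) (by fun_prop)
    have hpos : 0 ≤ ∫ x in (0 : ℝ)..L, (x ^ 4 - z ^ 2 * x ^ 2) * q x := by
      apply intervalIntegral.integral_nonneg hL.le
      intro x hx
      have e : x ^ 4 - z ^ 2 * x ^ 2 = x ^ 2 * ((x - z) * (x + z)) := by ring
      rw [e, mul_assoc]
      apply mul_nonneg (sq_nonneg x)
      rcases le_total x z with h1 | h1
      · have := h.qneg x hx.1 h1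
        have h2 : (x - z) * (x + z) ≤ 0 :=
          mul_nonpos_of_nonpos_of_nonneg (by linarith) (by linarith [hx.1, h.z_pos])
        exact mul_nonneg_of_nonpos_of_nonpos h2 this
      · exact mul_nonneg (mul_nonneg (by linarith) (by linarith [hx.1, h.z_pos])) (h.q_nonneg' h1)
    rw [hbp, h.v_zero, h.supp L le_rfl] at hpos
    have e : ∫ x in (0 : ℝ)..L, (4 * x ^ 3 - z ^ 2 * (2 * x)) * v x = 4 * n3 - 2 * z ^ 2 * n1 := by
      rw [hn1, hn3, ← intervalIntegral.integral_const_mul, ← intervalIntegral.integral_const_mul,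
        ← intervalIntegral.integral_sub]
      · apply intervalIntegral.integral_congr
        intro x _
        simp only
        ring
      all_goals apply Continuous.intervalIntegrable; have := h.v_cont; fun_prop
    rw [e] at hpos
    linarith
  have htz : z < t := by
    by_contra hc
    have hc' := not_lt.1 hc
    have : t ^ 2 ≤ z ^ 2 := by nlinarith
    nlinarith
  -- the peak
  set P : Set ℝ := {x | z < x ∧ x < L ∧ F x < 0} with hP
  have hPne : P.Nonempty := ⟨t, htz, htL, hFt⟩
  have hPb : BddAbove P := ⟨L, fun x hx => hx.2.1.le⟩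
  set τ := sSup P with hτ
  have hτL : τ ≤ L := csSup_le hPne fun x hx => hx.2.1.le
  have htτ : t < τ := by
    have hev : ∀ᶠ x in 𝓝 t, x ∈ P := by
      have h1 : ∀ᶠ x in 𝓝 t, F x < 0 := h.hF.continuousAt.eventually (gt_mem_nhds hFt)
      filter_upwards [h1, Ioi_mem_nhds htz, Iio_mem_nhds htL] with x a1 a2 a3
      exact ⟨a2, a3, a1⟩
    obtain ⟨x, hx, hxt⟩ := ((hev.filter_mono nhdsWithin_le_nhds).and
      (self_mem_nhdsWithin : ∀ᶠ x in 𝓝[>] t, x ∈ Ioi t)).exists
    exact lt_of_lt_of_le hxt (le_csSup hPb hx)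
  have hFneg : ∀ x, z < x → x < τ → F x ≤ 0 := by
    intro x hx hxτ
    obtain ⟨y, hy, hxy⟩ := exists_lt_of_lt_csSup hPne hxτ
    have h1 := h.qlog x y hx hxy.le hy.2.1
    have h2 := h.qpos x hx (hxy.trans hy.2.1)
    have h3 := h.qpos y hy.1 hy.2.1
    have h4 : 0 < -F y * q x := mul_pos (by linarith [hy.2.2]) h2
    by_contra h5
    have h6 : -F x * q y < 0 := mul_neg_of_neg_of_pos (by linarith [not_le.1 h5]) h3
    linarith
  have hFpos : ∀ x, τ < x → 0 ≤ F x := by
    intro x hx
    rcases lt_or_ge x L with h1 | h1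
    · by_contra h2
      exact absurd (le_csSup hPb (⟨htz.trans (htτ.trans hx), h1, not_le.1 h2⟩ : x ∈ P)) (not_le.2 hx)
    · rw [h.F_supp h1]
  -- the test function
  have hτ0 : 0 < τ := ht0.trans htτ
  set g : ℝ → ℝ := fun x => x ^ 5 - τ ^ 2 * x ^ 3 with hg
  set g' : ℝ → ℝ := fun x => 5 * x ^ 4 - τ ^ 2 * (3 * x ^ 2) with hg'
  have dg : ∀ x, HasDerivAt g (g' x) x := by
    intro x
    have h1 := (hasDerivAt_pow 5 x).sub ((hasDerivAt_pow 3 x).const_mul (τ ^ 2))
    refine h1.congr_deriv ?_
    rw [hg']; norm_num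
  have cg : Continuous g := by rw [hg]; fun_prop
  have cg' : Continuous g' := by rw [hg']; fun_prop
  have dg' : ∀ x, HasDerivAt g' (20 * x ^ 3 - τ ^ 2 * (6 * x)) x := by
    intro x
    have h1 := ((hasDerivAt_pow 4 x).const_mul 5).sub
      (((hasDerivAt_pow 2 x).const_mul 3).const_mul (τ ^ 2))
    refine h1.congr_deriv ?_
    norm_num
    ring
  have total : ∫ x in (0 : ℝ)..L, g x * F x = 20 * n3 - 6 * τ ^ 2 * n1 := by
    rw [h.by_parts_q dg cg', h.by_parts_v dg' (by fun_prop), h.v_zero, h.supp L le_rfl,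
      h.q_supp le_rfl]
    have e0 : g 0 = 0 := by rw [hg]; norm_num
    rw [e0]
    have e : ∫ x in (0 : ℝ)..L, (20 * x ^ 3 - τ ^ 2 * (6 * x)) * v x = 20 * n3 - 6 * τ ^ 2 * n1 := by
      rw [hn1, hn3, ← intervalIntegral.integral_const_mul, ← intervalIntegral.integral_const_mul,
        ← intervalIntegral.integral_sub]
      · apply intervalIntegral.integral_congr
        intro x _
        simp only
        ring
      all_goals apply Continuous.intervalIntegrable; have := h.v_cont; fun_prop
    rw [e]; ring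
  have hτt : t ^ 2 < τ ^ 2 := by nlinarith
  have hneg : 20 * n3 - 6 * τ ^ 2 * n1 < 0 := by nlinarith
  have hi : ∀ a c, IntervalIntegrable (fun x => g x * F x) volume a c := fun a c =>
    (cg.mul h.hF).intervalIntegrable a c
  have part2 : 0 ≤ ∫ x in z..L, g x * F x := by
    apply intervalIntegral.integral_nonneg h.z_lt.le
    intro x hx
    have hx0 : 0 < x := lt_of_lt_of_le h.z_pos hx.1
    have e : g x = x ^ 3 * ((x - τ) * (x + τ)) := by rw [hg]; ring
    rw [e, mul_assoc]
    apply mul_nonneg (by positivity)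
    rcases lt_trichotomy x τ with h1 | h1 | h1
    · have hF' : F x ≤ 0 := by
        rcases hx.1.lt_or_eq with h2 | h2
        · exact hFneg x h2 h1
        · -- x = z: by continuity
          have hc : Tendsto F (𝓝[>] z) (𝓝 (F z)) :=
            h.hF.continuousAt.tendsto.mono_left nhdsWithin_le_nhds
          rw [← h2]
          refine le_of_tendsto hc ?_
          filter_upwards [Ioo_mem_nhdsGT (htz.trans htτ)] with y hy
          exact hFneg y hy.1 hy.2
      exact mul_nonneg_of_nonpos_of_nonpos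
        (mul_nonpos_of_nonpos_of_nonneg (by linarith) (by linarith)) hF'
    · rw [h1]; simp
    · exact mul_nonneg (mul_nonneg (by linarith) (by linarith)) (hFpos x h1)
  have hzτ : 5 * z ^ 2 ≤ 3 * τ ^ 2 := by
    by_contra hc
    have hc' := not_le.1 hc
    have : 3 * τ ^ 2 * n1 < 5 * z ^ 2 * n1 := mul_lt_mul_of_pos_right hc' n1pos
    nlinarith
  have part1 : 0 ≤ ∫ x in (0 : ℝ)..z, g x * F x := by
    rw [h.by_parts_q dg cg', h.q_z]
    have e0 : g 0 = 0 := by rw [hg]; norm_num
    rw [e0]
    have : 0 ≤ ∫ x in (0 : ℝ)..z, g' x * q x := by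
      apply intervalIntegral.integral_nonneg h.z_pos.le
      intro x hx
      have h1 : g' x ≤ 0 := by
        have e : g' x = x ^ 2 * (5 * x ^ 2 - 3 * τ ^ 2) := by rw [hg']; ring
        rw [e]
        apply mul_nonpos_of_nonneg_of_nonpos (sq_nonneg x)
        have : x ^ 2 ≤ z ^ 2 := by nlinarith [hx.1, hx.2]
        linarith
      exact mul_nonneg_of_nonpos_of_nonpos h1 (h.qneg x hx.1 hx.2)
    linarith
  have hsum := intervalIntegral.integral_add_adjacent_intervals (hi 0 z) (hi z L)
  rw [total] at hsum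
  linarith

end Good

end Pool.Agent.H60.Big
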