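import Pool.Agent.H60.Big.Link

set_option autoImplicit false

open MeasureTheory Set Filter Topology

namespace Pool.Agent.H60.Big

open Pool.Agent.H64.Slab Pool.Agent.H60.Slab

theorem Lam_nonneg {m : ℕ} (b : Fin m → ℝ) (hb : ∀ j, 0 < b j) {t p d : ℝ} (ht0 : 0 < t)
    (hd : 0 < d) (hp : d < p) (hbp : ∀ j, b j ≤ p)
    (ht : 10 * (3 / 7 * ((p ^ 2 + d ^ 2) / 2) + ∑ j, b j ^ 2) ≤ 3 * t ^ 2) :
    0 ≤ (p ^ 2 - d ^ 2) / 4 * ((WW b 1 (p - t) - WW b 1 (-p - t)) / p +
        (WW b 1 (d - t) - WW b 1 (-d - t)) / d) - (RR b t p - RR b t d) := by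
  rw [Lam_eq]
  obtain ⟨z, hG⟩ := base_good hd hp
  apply iterate_nonneg m b _ _ _ z p t hG hb hbp ht0
  obtain ⟨h1, h3⟩ := base_moments hd hp
  rw [h3, h1]
  have hδ : 0 < (p ^ 2 - d ^ 2) / 4 := by nlinarith
  have h4 : 0 < 4 / 45 * ((p ^ 2 - d ^ 2) / 4) ^ 3 := by positivity
  have h5 := mul_le_mul_of_nonneg_right ht h4.le
  calc 10 * (4 / 105 * ((p ^ 2 + d ^ 2) / 2) * ((p ^ 2 - d ^ 2) / 4) ^ 3 +
        (∑ j, b j ^ 2) * (4 / 45 * ((p ^ 2 - d ^ 2) / 4) ^ 3)) =
      10 * (3 / 7 * ((p ^ 2 + d ^ 2) / 2) + ∑ j, b j ^ 2) * (4 / 45 * ((p ^ 2 - d ^ 2) / 4) ^ 3) := by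
        ring
    _ ≤ 3 * t ^ 2 * (4 / 45 * ((p ^ 2 - d ^ 2) / 4) ^ 3) := h5

theorem RR_slope' {m : ℕ} (b : Fin m → ℝ) (hb : ∀ j, 0 < b j) {t s u v : ℝ} (ht0 : 0 < t)
    (ht : 10 * (3 / 7 * s + ∑ j, b j ^ 2) ≤ 3 * t ^ 2) (hbp : ∀ j, b j ≤ Real.sqrt (s + u))
    (hu : 0 < u) (huv : u ≤ v) (hvs : v ≤ s) :
    (RR b t (Real.sqrt (s + u)) - RR b t (Real.sqrt (s - u))) / u ≤
      (RR b t (Real.sqrt (s + v)) - RR b t (Real.sqrt (s - v))) / v := by
  have hs : 0 < s := lt_of_lt_of_le hu (huv.trans hvs)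
  have hRc : Continuous (RR b t) :=
    continuous_iff_continuousAt.2 fun x => (RR_hasDerivAt b hb t x).continuousAt
  have hd : ∀ w ∈ Ioo u v, HasDerivAt
      (fun w => (RR b t (Real.sqrt (s + w)) - RR b t (Real.sqrt (s - w))) / w)
      ((((WW b 1 (Real.sqrt (s + w) - t) - WW b 1 (-Real.sqrt (s + w) - t)) *
          (1 / (2 * Real.sqrt (s + w))) -
        (WW b 1 (Real.sqrt (s - w) - t) - WW b 1 (-Real.sqrt (s - w) - t)) *
          (-1 / (2 * Real.sqrt (s - w)))) * w -
        (RR b t (Real.sqrt (s + w)) - RR b t (Real.sqrt (s - w))) * 1) / w ^ 2) w := by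
    intro w hw
    have hw0 : 0 < w := hu.trans hw.1
    have h1 : HasDerivAt (fun w => Real.sqrt (s + w)) (1 / (2 * Real.sqrt (s + w))) w := by
      have := ((hasDerivAt_id w).const_add s).sqrt (by simp only [id]; linarith)
      simpa using this
    have h2 : HasDerivAt (fun w => Real.sqrt (s - w)) (-1 / (2 * Real.sqrt (s - w))) w := by
      have := ((hasDerivAt_id w).const_sub s).sqrt (by simp only [id]; linarith [hw.2])
      simpa using this
    have g1 := (RR_hasDerivAt b hb t (Real.sqrt (s + w))).comp w h1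
    have g2 := (RR_hasDerivAt b hb t (Real.sqrt (s - w))).comp w h2
    exact (g1.sub g2).div (hasDerivAt_id w) hw0.ne'
  have hmono : MonotoneOn
      (fun w => (RR b t (Real.sqrt (s + w)) - RR b t (Real.sqrt (s - w))) / w) (Icc u v) := by
    apply monotoneOn_of_deriv_nonneg (convex_Icc u v)
    · apply ContinuousOn.div
      · apply Continuous.continuousOn
        have h1 : Continuous fun w : ℝ => Real.sqrt (s + w) := by fun_prop
        have h2 : Continuous fun w : ℝ => Real.sqrt (s - w) := by fun_prop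
        exact (hRc.comp h1).sub (hRc.comp h2)
      · exact continuousOn_id
      · intro w hw
        exact (lt_of_lt_of_le hu hw.1).ne'
    · intro w hw
      rw [interior_Icc] at hw
      exact (hd w hw).differentiableAt.differentiableWithinAt
    · intro w hw
      rw [interior_Icc] at hw
      rw [(hd w hw).deriv]
      have hw0 : 0 < w := hu.trans hw.1
      have hws : w < s := lt_of_lt_of_le hw.2 hvs
      apply div_nonneg _ (sq_nonneg w)
      have p2 : Real.sqrt (s + w) ^ 2 = s + w := Real.sq_sqrt (by linarith)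
      have d2 : Real.sqrt (s - w) ^ 2 = s - w := Real.sq_sqrt (by linarith)
      have hd0 : 0 < Real.sqrt (s - w) := Real.sqrt_pos.2 (by linarith)
      have hpd : Real.sqrt (s - w) < Real.sqrt (s + w) := Real.sqrt_lt_sqrt (by linarith) (by linarith)
      have hp0 : 0 < Real.sqrt (s + w) := hd0.trans hpd
      have hup : Real.sqrt (s + u) ≤ Real.sqrt (s + w) := Real.sqrt_le_sqrt (by linarith [hw.1])
      have hL := Lam_nonneg b hb (t := t) (p := Real.sqrt (s + w)) (d := Real.sqrt (s - w)) ht0 hd0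
        hpd (fun j => (hbp j).trans hup) (by
          rw [p2, d2]
          have : (s + w + (s - w)) / 2 = s := by ring
          rw [this]; exact ht)
      rw [p2, d2] at hL
      refine le_of_le_of_eq hL ?_
      field_simp
      ring
  exact hmono (left_mem_Icc.2 huv) (right_mem_Icc.2 huv) huv

/-- moving two coordinates closer decreases the volume, if one of them is the largest. -/
theorem FV_pair_le' {m : ℕ} (a a' : Fin (m + 2) → ℝ) (i : Fin (m + 2)) (j : Fin (m + 1))
    (ha : ∀ k, 0 < a k) (ha' : ∀ k, 0 < a' k) (hmax : ∀ k, a k ≤ a i)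
    (hrest : ∀ k, a' (i.succAbove (j.succAbove k)) = a (i.succAbove (j.succAbove k)))
    (hsq : a' i ^ 2 + a' (i.succAbove j) ^ 2 = a i ^ 2 + a (i.succAbove j) ^ 2)
    (hprod : a i * a (i.succAbove j) ≤ a' i * a' (i.succAbove j))
    (hsum : ∑ k, a k ^ 2 = 1) {t : ℝ} (ht0 : 0 < t) (ht : 10 ≤ 3 * t ^ 2) : FV a' t 0 ≤ FV a t 0 := by
  rw [FV_pair' a i j (ha _) (ha _) ht0.le, FV_pair' a' i j (ha' _) (ha' _) ht0.le, hsq]
  have hb : (fun k => a' (i.succAbove (j.succAbove k))) = fun k => a (i.succAbove (j.succAbove k)) :=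
    funext hrest
  rw [hb]
  set α := a i with hαd
  set β := a (i.succAbove j) with hβd
  set b : Fin m → ℝ := fun k => a (i.succAbove (j.succAbove k)) with hbd
  have hα : 0 < α := ha _
  have hβ : 0 < β := ha _
  have hV : ∑ k, b k ^ 2 = 1 - (α ^ 2 + β ^ 2) := by
    rw [← hsum, Fin.sum_univ_succAbove _ i, Fin.sum_univ_succAbove _ j]
    ring
  have key := RR_slope' b (fun k => ha _) (t := t) (s := α ^ 2 + β ^ 2) (u := 2 * (α * β))
    (v := 2 * (a' i * a' (i.succAbove j))) ht0 (by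
      rw [hV]
      have : 0 ≤ α ^ 2 + β ^ 2 := by positivity
      linarith)
    (by
      intro k
      have e1 : Real.sqrt (α ^ 2 + β ^ 2 + 2 * (α * β)) = α + β := by
        rw [show α ^ 2 + β ^ 2 + 2 * (α * β) = (α + β) ^ 2 by ring, Real.sqrt_sq (by positivity)]
      rw [e1]
      have := hmax (i.succAbove (j.succAbove k))
      linarith)
    (by positivity) (by linarith) (by
      have := sq_nonneg (a' i - a' (i.succAbove j))
      nlinarith)
  linarith

theorem FV_min_pos' {n : ℕ} (hn : 1 ≤ n) {t : ℝ} (ht0 : 0 < t) (ht : 10 ≤ 3 * t ^ 2) :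
    ∀ (K : ℕ) (a : Fin n → ℝ),
    (∀ k, 0 < a k) → ∑ k, a k ^ 2 = 1 →
    (Finset.univ.filter (fun k => a k ^ 2 ≠ 1 / (n : ℝ))).card ≤ K →
    FV (fun _ : Fin n => 1 / Real.sqrt n) t 0 ≤ FV a t 0 := by
  have hn0 : (0 : ℝ) < n := by exact_mod_cast hn
  have hsn : 0 < Real.sqrt n := Real.sqrt_pos.2 hn0
  have hsq1 : (1 / Real.sqrt n) ^ 2 = 1 / (n : ℝ) := by
    rw [div_pow, Real.sq_sqrt hn0.le, one_pow]
  have hbase : ∀ a : Fin n → ℝ, (∀ k, 0 < a k) → (∀ k, a k ^ 2 = 1 / (n : ℝ)) →
      FV (fun _ : Fin n => 1 / Real.sqrt n) t 0 ≤ FV a t 0 := by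
    intro a ha h
    have : a = fun _ : Fin n => 1 / Real.sqrt n := by
      ext k
      have h1 := h k
      rw [← hsq1] at h1
      exact (sq_eq_sq₀ (ha k).le (by positivity)).1 h1
    rw [this]
  intro K
  induction K with
  | zero =>
    intro a ha _ hc
    apply hbase a ha
    intro k
    by_contra hk
    have : k ∈ Finset.univ.filter (fun k => a k ^ 2 ≠ 1 / (n : ℝ)) :=
      Finset.mem_filter.2 ⟨Finset.mem_univ _, hk⟩
    have := Finset.card_pos.2 ⟨k, this⟩
    omega
  | succ K ih =>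
    intro a ha hsum hc
    by_cases hall : ∀ k, a k ^ 2 = 1 / (n : ℝ)
    · exact hbase a ha hall
    push Not at hall
    obtain ⟨k0, hk0⟩ := hall
    have hsum0 : ∑ k, (a k ^ 2 - 1 / (n : ℝ)) = 0 := by
      rw [Finset.sum_sub_distrib, hsum]
      simp
      field_simp
      ring
    obtain ⟨i0, _, hi0⟩ := Finset.exists_pos_of_sum_zero_of_exists_nonzero
      (s := Finset.univ) (fun k => a k ^ 2 - 1 / (n : ℝ)) hsum0
      ⟨k0, Finset.mem_univ _, sub_ne_zero.2 hk0⟩
    haveI : Nonempty (Fin n) := ⟨i0⟩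
    obtain ⟨i, himax⟩ := Finite.exists_max a
    have hi : 0 < a i ^ 2 - 1 / (n : ℝ) := by
      have h1 := himax i0
      have h2 := ha i0
      nlinarith
    obtain ⟨l, _, hl⟩ := Finset.exists_pos_of_sum_zero_of_exists_nonzero
      (s := Finset.univ) (fun k => -(a k ^ 2 - 1 / (n : ℝ))) (by rw [Finset.sum_neg_distrib, hsum0, neg_zero])
      ⟨k0, Finset.mem_univ _, neg_ne_zero.2 (sub_ne_zero.2 hk0)⟩
    have hil : i ≠ l := by
      rintro rfl
      linarith
    have hn2 : 2 ≤ n := by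
      by_contra h
      have hn1 : n = 1 := by omega
      subst hn1
      exact hil (Subsingleton.elim _ _)
    obtain ⟨m, rfl⟩ : ∃ m, n = m + 2 := ⟨n - 2, by omega⟩
    obtain ⟨j, rfl⟩ := Fin.exists_succAbove_eq hil.symm
    set N : ℝ := ((m + 2 : ℕ) : ℝ) with hN
    set p : ℝ := Real.sqrt (a i ^ 2 + a (i.succAbove j) ^ 2 - 1 / N) with hp
    have hα := ha i
    have hβ := ha (i.succAbove j)
    have hi' : 1 / N < a i ^ 2 := by linarith
    have hl' : a (i.succAbove j) ^ 2 < 1 / N := by linarith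
    have hppos : 0 < a i ^ 2 + a (i.succAbove j) ^ 2 - 1 / N := by
      have : 0 < a (i.succAbove j) ^ 2 := by positivity
      linarith
    have hp0 : 0 < p := Real.sqrt_pos.2 hppos
    have hp2 : p ^ 2 = a i ^ 2 + a (i.succAbove j) ^ 2 - 1 / N := Real.sq_sqrt hppos.le
    set a' : Fin (m + 2) → ℝ := Function.update (Function.update a i (1 / Real.sqrt N)) (i.succAbove j) p
      with ha'
    have e1 : a' i = 1 / Real.sqrt N := by
      rw [ha', Function.update_of_ne hil, Function.update_self]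
    have e2 : a' (i.succAbove j) = p := by
      rw [ha', Function.update_self]
    have e3 : ∀ k, a' (i.succAbove (j.succAbove k)) = a (i.succAbove (j.succAbove k)) := by
      intro k
      rw [ha', Function.update_of_ne, Function.update_of_ne (Fin.succAbove_ne _ _)]
      intro h
      exact Fin.succAbove_ne j k (Fin.succAbove_right_injective h)
    have hpos' : ∀ k, 0 < a' k := by
      intro k
      rw [ha']
      by_cases h1 : k = i.succAbove j
      · rw [h1, Function.update_self]; exact hp0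
      · rw [Function.update_of_ne h1]
        by_cases h2 : k = i
        · rw [h2, Function.update_self]; positivity
        · rw [Function.update_of_ne h2]; exact ha k
    have hsq : a' i ^ 2 + a' (i.succAbove j) ^ 2 = a i ^ 2 + a (i.succAbove j) ^ 2 := by
      rw [e1, e2, hsq1, hp2]; ring
    have hprod : a i * a (i.succAbove j) ≤ a' i * a' (i.succAbove j) := by
      rw [e1, e2]
      apply abs_le_of_sq_le_sq' _ (by positivity) |>.2
      rw [mul_pow, mul_pow, hsq1, hp2]
      nlinarith [mul_pos (sub_pos.2 hi') (sub_pos.2 hl')]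
    have hsum' : ∑ k, a' k ^ 2 = 1 := by
      rw [← hsum, Fin.sum_univ_succAbove _ i, Fin.sum_univ_succAbove _ j,
        Fin.sum_univ_succAbove (fun k => a k ^ 2) i, Fin.sum_univ_succAbove _ j]
      simp only [e3]
      linarith
    have hcard : (Finset.univ.filter (fun k => a' k ^ 2 ≠ 1 / N)).card ≤ K := by
      have hsub : Finset.univ.filter (fun k => a' k ^ 2 ≠ 1 / N) ⊆
          (Finset.univ.filter (fun k => a k ^ 2 ≠ 1 / N)).erase i := by
        intro k hk
        rw [Finset.mem_filter] at hk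
        rw [Finset.mem_erase, Finset.mem_filter]
        have hki : k ≠ i := by
          rintro rfl
          exact hk.2 (by rw [e1, hsq1])
        refine ⟨hki, Finset.mem_univ _, ?_⟩
        by_cases h1 : k = i.succAbove j
        · rw [h1]; exact hl'.ne
        · have h2 : a' k = a k := by
            rw [ha', Function.update_of_ne h1, Function.update_of_ne hki]
          rw [← h2]; exact hk.2
      have h1 := Finset.card_le_card hsub
      have h2 : i ∈ Finset.univ.filter (fun k => a k ^ 2 ≠ 1 / N) := by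
        rw [Finset.mem_filter]
        exact ⟨Finset.mem_univ _, hi'.ne'⟩
      rw [Finset.card_erase_of_mem h2] at h1
      omega
    exact le_trans (ih a' hpos' hsum' hcard) (FV_pair_le' a a' i j ha hpos' himax e3 hsq hprod hsum ht0 ht)

theorem FV_min' {n : ℕ} (hn : 1 ≤ n) {t : ℝ} (ht0 : 0 < t) (ht : 10 ≤ 3 * t ^ 2) (a : Fin n → ℝ)
    (hsum : ∑ k, a k ^ 2 = 1) :
    FV (fun _ : Fin n => 1 / Real.sqrt n) t 0 ≤ FV a t 0 := by
  rw [← FV_abs a t]
  apply FV_right_cont
  intro ε hε
  obtain ⟨b, hb, hb1, hb2⟩ := exists_pos_near hn (fun i => |a i|) (fun i => abs_nonneg _)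
    (by simpa [sq_abs] using hsum) hε
  exact le_trans (FV_min_pos' hn ht0 ht _ b hb hb1 le_rfl) (FV_le_near _ _ hb2)

end Pool.Agent.H60.Big
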