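import Pool.Agent.H60.Big.Core

set_option autoImplicit false

open MeasureTheory Set Filter Topology

namespace Pool.Agent.H60.Big

theorem win1 {g : ℝ → ℝ} {α : ℝ} (hc : Continuous g)
    (h4 : ∀ x y s, α ≤ x → x ≤ y → 0 ≤ s → g x * g (y + s) ≤ g (x + s) * g y)
    {a c D : ℝ} (ha : α ≤ a) (hac : a ≤ c) (hD : 0 ≤ D) :
    g (c + D) * (∫ s in a..c, g s) ≤ g c * ∫ s in (a + D)..(c + D), g s := by
  rw [← intervalIntegral.integral_comp_add_right, ← intervalIntegral.integral_const_mul,
    ← intervalIntegral.integral_const_mul]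
  apply intervalIntegral.integral_mono_on hac
  · exact (by fun_prop : Continuous _).intervalIntegrable _ _
  · exact (by fun_prop : Continuous _).intervalIntegrable _ _
  · intro s hs
    have := h4 s (s + D) (c - s) (ha.trans hs.1) (by linarith) (by linarith [hs.2])
    rw [show s + D + (c - s) = c + D by ring, show s + (c - s) = c by ring] at this
    linarith

theorem win2 {g : ℝ → ℝ} {α : ℝ} (hc : Continuous g)
    (h4 : ∀ x y s, α ≤ x → x ≤ y → 0 ≤ s → g x * g (y + s) ≤ g (x + s) * g y)
    {a c D : ℝ} (ha : α ≤ a) (hac : a ≤ c) (hD : 0 ≤ D) :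
    g a * (∫ s in (a + D)..(c + D), g s) ≤ g (a + D) * ∫ s in a..c, g s := by
  rw [← intervalIntegral.integral_comp_add_right, ← intervalIntegral.integral_const_mul,
    ← intervalIntegral.integral_const_mul]
  apply intervalIntegral.integral_mono_on hac
  · exact (by fun_prop : Continuous _).intervalIntegrable _ _
  · exact (by fun_prop : Continuous _).intervalIntegrable _ _
  · intro s hs
    have := h4 a (a + D) (s - a) ha (by linarith) (by linarith [hs.1])
    rw [show a + D + (s - a) = s + D by ring, show a + (s - a) = s by ring] at this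
    linarith

theorem win_hasDerivAt {g : ℝ → ℝ} (hc : Continuous g) (b x : ℝ) :
    HasDerivAt (fun x => ∫ s in (x - b)..(x + b), g s) (g (x + b) - g (x - b)) x := by
  have h1 : ∀ y, HasDerivAt (fun y => ∫ s in (0 : ℝ)..y, g s) (g y) y := fun y =>
    intervalIntegral.integral_hasDerivAt_right (hc.intervalIntegrable _ _)
      (hc.stronglyMeasurableAtFilter _ _) hc.continuousAt
  have e : (fun x => ∫ s in (x - b)..(x + b), g s) =
      fun x => (∫ s in (0 : ℝ)..(x + b), g s) - ∫ s in (0 : ℝ)..(x - b), g s := by
    ext x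
    rw [intervalIntegral.integral_interval_sub_left (hc.intervalIntegrable _ _)
      (hc.intervalIntegrable _ _)]
  rw [e]
  exact ((h1 (x + b)).comp_add_const x b).sub ((h1 (x - b)).comp_sub_const x b)

theorem wavg_continuous {g : ℝ → ℝ} (hc : Continuous g) (b : ℝ) : Continuous (wavg b g) := by
  have : Continuous (fun x => ∫ s in (x - b)..(x + b), g s) :=
    continuous_iff_continuousAt.2 fun x => (win_hasDerivAt hc b x).continuousAt
  exact this.div_const _

namespace Good

variable {v q F : ℝ → ℝ} {z L : ℝ}

theorem int_q (h : Good v q F z L) (a c : ℝ) : ∫ s in a..c, q s = v a - v c := by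
  have := intervalIntegral.integral_eq_sub_of_hasDerivAt (f := v) (f' := fun x => -q x) (a := a)
    (b := c) (fun x _ => h.hv x) (h.q_cont.neg.intervalIntegrable _ _)
  rw [intervalIntegral.integral_neg] at this
  linarith

theorem int_F (h : Good v q F z L) (a c : ℝ) : ∫ s in a..c, F s = q a - q c := by
  have := intervalIntegral.integral_eq_sub_of_hasDerivAt (f := q) (f' := fun x => -F x) (a := a)
    (b := c) (fun x _ => h.hq x) (h.hF.neg.intervalIntegrable _ _)
  rw [intervalIntegral.integral_neg] at this
  linarith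

theorem v_inc (h : Good v q F z L) {a c : ℝ} (ha : 0 ≤ a) (hac : a ≤ c) (hc : c ≤ z) : v a ≤ v c := by
  have h1 := h.int_q a c
  have h2 : ∫ s in a..c, q s ≤ 0 := by
    rw [← intervalIntegral.integral_zero (a := a) (b := c) (μ := volume) (E := ℝ)]
    apply intervalIntegral.integral_mono_on hac (h.q_cont.intervalIntegrable _ _)
      (continuous_const.intervalIntegrable _ _)
    intro s hs
    exact h.qneg s (ha.trans hs.1) (hs.2.trans hc)
  linarith

theorem v_dec (h : Good v q F z L) {a c : ℝ} (ha : z ≤ a) (hac : a ≤ c) : v c ≤ v a := by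
  have h1 := h.int_q a c
  have h2 : 0 ≤ ∫ s in a..c, q s := by
    apply intervalIntegral.integral_nonneg hac
    intro s hs
    exact h.q_nonneg' (ha.trans hs.1)
  linarith

theorem v_max (h : Good v q F z L) {a : ℝ} (ha : 0 ≤ a) : v a ≤ v z := by
  rcases le_total a z with h1 | h1
  · exact h.v_inc ha h1 le_rfl
  · exact h.v_dec le_rfl h1

theorem v_dec_strict (h : Good v q F z L) {c : ℝ} (hc : z < c) : v c < v z := by
  rcases lt_or_ge c L with h2 | h2
  · have h1 := h.int_q z c
    have h3 : 0 < ∫ s in z..c, q s := by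
      apply intervalIntegral.intervalIntegral_pos_of_pos_on (h.q_cont.intervalIntegrable _ _) _ hc
      intro x hx
      exact h.qpos x hx.1 (hx.2.trans h2)
    linarith
  · rw [h.supp c h2]
    exact h.pos z h.z_pos h.z_lt

theorem int_v_even_part (h : Good v q F z L) (c : ℝ) : ∫ s in (-c)..c, v s = 0 := by
  have h1 := intervalIntegral.integral_comp_neg (a := -c) (b := c) v
  simp only [h.odd, neg_neg, intervalIntegral.integral_neg] at h1
  linarith

theorem win_eq (h : Good v q F z L) (b x : ℝ) :
    ∫ s in (x - b)..(x + b), v s = ∫ s in (b - x)..(b + x), v s := by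
  have hi : ∀ a c, IntervalIntegrable v volume a c := fun a c => h.v_cont.intervalIntegrable a c
  have h1 := intervalIntegral.integral_add_adjacent_intervals (hi (x - b) (b - x)) (hi (b - x) (x + b))
  have h2 := h.int_v_even_part (b - x)
  rw [neg_sub] at h2
  rw [← h1, h2, zero_add, add_comm x b]

theorem int_v_mono (h : Good v q F z L) {a a' c c' : ℝ} (ha : 0 ≤ a') (h1 : a' ≤ a) (h2 : a ≤ c)
    (h3 : c ≤ c') : ∫ s in a..c, v s ≤ ∫ s in a'..c', v s := by
  apply intervalIntegral.integral_mono_interval h1 h2 h3 _ (h.v_cont.intervalIntegrable _ _)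
  rw [EventuallyLE]
  rw [ae_restrict_iff' measurableSet_Ioc]
  exact Eventually.of_forall fun s hs => h.v_nonneg (ha.trans hs.1.le)

theorem win_pos (h : Good v q F z L) {b x : ℝ} (hb : 0 < b) (hbL : b ≤ L) (hx : 0 < x)
    (hxL : x < L + b) : 0 < ∫ s in (x - b)..(x + b), v s := by
  -- it suffices to find a subinterval
  have key : ∀ a c : ℝ, 0 ≤ a → a < L → a < c → 0 < ∫ s in a..c, v s := by
    intro a c ha haL hac
    set m := min c L with hm
    have ham : a < m := lt_min hac haL
    have h1 : 0 < ∫ s in a..m, v s := by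
      apply intervalIntegral.intervalIntegral_pos_of_pos_on (h.v_cont.intervalIntegrable _ _) _ ham
      intro s hs
      exact h.pos s (lt_of_le_of_lt ha hs.1) (lt_of_lt_of_le hs.2 (min_le_right _ _))
    exact lt_of_lt_of_le h1 (h.int_v_mono ha le_rfl ham.le (min_le_left _ _))
  rcases le_total b x with h1 | h1
  · exact key _ _ (by linarith) (by linarith) (by linarith)
  · rw [h.win_eq]
    exact key _ _ (by linarith) (by linarith) (by linarith)

theorem win_log (h : Good v q F z L) {b : ℝ} (hb : 0 < b) (hbL : b ≤ L) {x y : ℝ} (hx : 0 < x)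
    (hxy : x ≤ y) (hy : y < L + b) :
    (v (y + b) - v (y - b)) * (∫ s in (x - b)..(x + b), v s) ≤
      (v (x + b) - v (x - b)) * ∫ s in (y - b)..(y + b), v s := by
  have h4 : ∀ x y s, 0 ≤ x → x ≤ y → 0 ≤ s → v x * v (y + s) ≤ v (x + s) * v y :=
    fun x y s a1 a2 a3 => h.v_four a1 a2 a3
  have caseA : ∀ x y : ℝ, b ≤ x → x ≤ y →
      (v (y + b) - v (y - b)) * (∫ s in (x - b)..(x + b), v s) ≤
      (v (x + b) - v (x - b)) * ∫ s in (y - b)..(y + b), v s := by
    intro x y hx hxy
    have w1 := win1 h.v_cont h4 (a := x - b) (c := x + b) (D := y - x) (by linarith) (by linarith)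
      (by linarith)
    have w2 := win2 h.v_cont h4 (a := x - b) (c := x + b) (D := y - x) (by linarith) (by linarith)
      (by linarith)
    rw [show x + b + (y - x) = y + b by ring, show x - b + (y - x) = y - b by ring] at w1 w2
    linarith
  have caseB : ∀ x y : ℝ, 0 < x → x ≤ y → y ≤ b →
      (v (y + b) - v (y - b)) * (∫ s in (x - b)..(x + b), v s) ≤
      (v (x + b) - v (x - b)) * ∫ s in (y - b)..(y + b), v s := by
    intro x y hx hxy hyb
    have e1 : v (y - b) = - v (b - y) := by rw [← h.odd, neg_sub]
    have e2 : v (x - b) = - v (b - x) := by rw [← h.odd, neg_sub]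
    rw [h.win_eq b x, h.win_eq b y, e1, e2]
    have w1 := win1 h.v_cont h4 (a := b - x) (c := b + x) (D := y - x) (by linarith) (by linarith)
      (by linarith)
    have w2 := win2 h.v_cont h4 (a := b - y) (c := b + 2 * x - y) (D := y - x) (by linarith)
      (by linarith) (by linarith)
    rw [show b + x + (y - x) = b + y by ring] at w1
    rw [show b - y + (y - x) = b - x by ring, show b + 2 * x - y + (y - x) = b + x by ring] at w2
    have m1 : ∫ s in (b - x + (y - x))..(b + y), v s ≤ ∫ s in (b - y)..(b + y), v s :=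
      h.int_v_mono (by linarith) (by linarith) (by linarith) le_rfl
    have m2 : ∫ s in (b - y)..(b + 2 * x - y), v s ≤ ∫ s in (b - y)..(b + y), v s :=
      h.int_v_mono (by linarith) le_rfl (by linarith) (by linarith)
    have n1 := mul_le_mul_of_nonneg_left m1 (h.v_nonneg (by linarith : (0 : ℝ) ≤ b + x))
    have n2 := mul_le_mul_of_nonneg_left m2 (h.v_nonneg (by linarith : (0 : ℝ) ≤ b - x))
    rw [add_comm y b, add_comm x b]
    linarith
  rcases le_total b x with h1 | h1
  · exact caseA x y h1 hxy
  · rcases le_total y b with h2 | h2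
    · exact caseB x y hx hxy h2
    · have c1 := caseB x b hx h1 le_rfl
      have c2 := caseA b y le_rfl h2
      have hbp := h.win_pos hb hbL hb (by linarith [h.L_pos])
      have hxp := h.win_pos hb hbL hx (by linarith)
      have hyp := h.win_pos hb hbL (lt_of_lt_of_le hx hxy) hy
      set Ix := ∫ s in (x - b)..(x + b), v s
      set Iy := ∫ s in (y - b)..(y + b), v s
      set Ib := ∫ s in (b - b)..(b + b), v s
      have d1 := mul_le_mul_of_nonneg_right c2 hxp.le
      have d2 := mul_le_mul_of_nonneg_right c1 hyp.le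
      have : ((v (y + b) - v (y - b)) * Ix) * Ib ≤ ((v (x + b) - v (x - b)) * Iy) * Ib := by
        linarith
      exact le_of_mul_le_mul_right this hbp

/-- log-concavity of `x ↦ v (x-b) - v (x+b)` on the region where it is positive -/
theorem diff_log (h : Good v q F z L) {b : ℝ} (hb : 0 < b) {x y : ℝ} (hx : b ≤ x)
    (hxy : x ≤ y) (hfx : 0 < v (x - b) - v (x + b)) (hfy : 0 < v (y - b) - v (y + b)) :
    (q (y + b) - q (y - b)) * (v (x - b) - v (x + b)) ≤
      (q (x + b) - q (x - b)) * (v (y - b) - v (y + b)) := by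
  have h4 : ∀ x y s, z ≤ x → x ≤ y → 0 ≤ s → q x * q (y + s) ≤ q (x + s) * q y :=
    fun x y s a1 a2 a3 => h.q_four a1 a2 a3
  have caseA : ∀ x y : ℝ, z + b ≤ x → x ≤ y →
      (q (y + b) - q (y - b)) * (v (x - b) - v (x + b)) ≤
      (q (x + b) - q (x - b)) * (v (y - b) - v (y + b)) := by
    intro x y hx hxy
    have w1 := win1 h.q_cont h4 (a := x - b) (c := x + b) (D := y - x) (by linarith) (by linarith)
      (by linarith)
    have w2 := win2 h.q_cont h4 (a := x - b) (c := x + b) (D := y - x) (by linarith) (by linarith)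
      (by linarith)
    rw [show x + b + (y - x) = y + b by ring, show x - b + (y - x) = y - b by ring] at w1 w2
    rw [h.int_q, h.int_q] at w1 w2
    linarith
  have caseB : ∀ x y : ℝ, b ≤ x → x ≤ y → y ≤ z + b → 0 < v (x - b) - v (x + b) →
      (q (y + b) - q (y - b)) * (v (x - b) - v (x + b)) ≤
      (q (x + b) - q (x - b)) * (v (y - b) - v (y + b)) := by
    intro x y hx hxy hy hfx
    have hcz : z < x + b := by
      by_contra hcon
      have := h.v_inc (a := x - b) (c := x + b) (by linarith) (by linarith) (not_lt.1 hcon)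
      linarith
    have hx0 : 0 < x - b := by
      rcases (sub_nonneg.2 hx).lt_or_eq with h1 | h1
      · exact h1
      · exfalso
        rw [← h1, h.v_zero] at hfx
        have := h.v_nonneg (x := x + b) (by linarith)
        linarith
    have hA : 0 < v (x - b) := by
      have := h.v_nonneg (x := x + b) (by linarith)
      linarith
    -- term 1
    have p1 : -q (y - b) * v (x - b) ≤ -q (x - b) * v (y - b) :=
      h.vlog (x - b) (y - b) hx0 (by linarith) (by linarith [h.z_lt])
    have p2 : v (x - b) * v (y + b) ≤ v (x + b) * v (y - b) := by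
      have := h.v_four (x := x - b) (y := y - b) (s := 2 * b) hx0.le (by linarith) (by linarith)
      rwa [show y - b + 2 * b = y + b by ring, show x - b + 2 * b = x + b by ring] at this
    have p3 : 0 ≤ -q (x - b) := by
      have := h.qneg (x - b) hx0.le (by linarith)
      linarith
    have t1 : -q (y - b) * (v (x - b) - v (x + b)) ≤ -q (x - b) * (v (y - b) - v (y + b)) := by
      have s1 := mul_le_mul_of_nonneg_right p1 hfx.le
      have s2 := mul_le_mul_of_nonneg_left p2 p3
      have : (-q (y - b) * (v (x - b) - v (x + b))) * v (x - b) ≤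
          (-q (x - b) * (v (y - b) - v (y + b))) * v (x - b) := by nlinarith
      exact le_of_mul_le_mul_right this hA
    -- term 2
    have u1 : q (y + b) * (v z - v (x + b)) ≤ q (x + b) * (v z - v (y + b)) := by
      have w1 := win1 h.q_cont h4 (a := z) (c := x + b) (D := y - x) le_rfl hcz.le (by linarith)
      rw [show x + b + (y - x) = y + b by ring, h.int_q, h.int_q] at w1
      have hm : v (z + (y - x)) ≤ v z := h.v_max (by linarith [h.z_pos])
      have hq := h.q_nonneg hcz
      nlinarith
    have u2 : v (y + b) ≤ v (x + b) := h.v_dec hcz.le (by linarith)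
    have u3 : v (x - b) ≤ v z := h.v_max hx0.le
    have u4 : v (x - b) ≤ v (y - b) := h.v_inc hx0.le (by linarith) (by linarith)
    have u5 : 0 < v z - v (x + b) := by linarith [h.v_dec_strict hcz]
    have hq := h.q_nonneg hcz
    have t2 : q (y + b) * (v (x - b) - v (x + b)) ≤ q (x + b) * (v (y - b) - v (y + b)) := by
      set U := v z - v (x + b) with hU
      set U' := v z - v (y + b) with hU'
      set N := v z - v (x - b) with hN
      set N' := v z - v (y - b) with hN'
      have e1 : v (x - b) - v (x + b) = U - N := by rw [hU, hN]; ring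
      have e2 : v (y - b) - v (y + b) = U' - N' := by rw [hU', hN']; ring
      rw [e1] at hfx ⊢
      rw [e2]
      have s1 := mul_le_mul_of_nonneg_right u1 hfx.le
      have hNn : 0 ≤ N := by rw [hN]; linarith
      have hUU : U ≤ U' := by rw [hU, hU']; linarith
      have hNN : N' ≤ N := by rw [hN, hN']; linarith
      have s2 : q (x + b) * U' * (U - N) ≤ q (x + b) * U * (U' - N) := by
        have : 0 ≤ q (x + b) * (N * (U' - U)) :=
          mul_nonneg hq (mul_nonneg hNn (by linarith))
        nlinarith
      have s3 : q (x + b) * U * (U' - N) ≤ q (x + b) * U * (U' - N') :=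
        mul_le_mul_of_nonneg_left (by linarith) (mul_nonneg hq u5.le)
      have : (q (y + b) * (U - N)) * U ≤ (q (x + b) * (U' - N')) * U := by nlinarith
      exact le_of_mul_le_mul_right this u5
    linarith
  rcases le_total (z + b) x with h1 | h1
  · exact caseA x y h1 hxy
  · rcases le_total y (z + b) with h2 | h2
    · exact caseB x y hx hxy h2 hfx
    · have hm : 0 < v (z + b - b) - v (z + b + b) := by
        rw [show z + b - b = z by ring]
        linarith [h.v_dec_strict (c := z + b + b) (by linarith)]
      have c1 := caseB x (z + b) hx h1 le_rfl hfx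
      have c2 := caseA (z + b) y le_rfl h2
      set fx := v (x - b) - v (x + b)
      set fy := v (y - b) - v (y + b)
      set fm := v (z + b - b) - v (z + b + b)
      have d1 := mul_le_mul_of_nonneg_right c2 hfx.le
      have d2 := mul_le_mul_of_nonneg_right c1 hfy.le
      have : ((q (y + b) - q (y - b)) * fx) * fm ≤ ((q (x + b) - q (x - b)) * fy) * fm := by
        linarith
      exact le_of_mul_le_mul_right this hm

/-- once positive, the difference stays positive until the end of the support -/
theorem diff_pos_up (h : Good v q F z L) {b : ℝ} (hb : 0 < b) {x y : ℝ} (hx : b ≤ x)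
    (hxy : x ≤ y) (hy : y < L + b) (hfx : 0 < v (x - b) - v (x + b)) :
    0 < v (y - b) - v (y + b) := by
  have hx0 : 0 < x - b := by
    rcases (sub_nonneg.2 hx).lt_or_eq with h1 | h1
    · exact h1
    · exfalso
      rw [← h1, h.v_zero] at hfx
      have := h.v_nonneg (x := x + b) (by linarith)
      linarith
  have p2 : v (x - b) * v (y + b) ≤ v (x + b) * v (y - b) := by
    have := h.v_four (x := x - b) (y := y - b) (s := 2 * b) hx0.le (by linarith) (by linarith)
    rwa [show y - b + 2 * b = y + b by ring, show x - b + 2 * b = x + b by ring] at this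
  have hyp : 0 < v (y - b) := h.pos _ (by linarith) (by linarith)
  have hxp : 0 < v (x - b) := by
    have := h.v_nonneg (x := x + b) (by linarith)
    linarith
  have : v (x - b) * v (y + b) < v (x - b) * v (y - b) := by
    have := mul_lt_mul_of_pos_right (sub_pos.1 hfx) hyp
    linarith
  have := lt_of_mul_lt_mul_left this hxp.le
  linarith

/-- The class is preserved by averaging. -/
theorem avg (h : Good v q F z L) {b : ℝ} (hb : 0 < b) (hbL : b ≤ L) :
    ∃ z', Good (wavg b v) (wavg b q) (wavg b F) z' (L + b) := by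
  have h2b : 0 < 2 * b := by linarith
  have eq_q : ∀ x, wavg b q x = (v (x - b) - v (x + b)) / (2 * b) := by
    intro x; unfold wavg; rw [h.int_q]
  have eq_F : ∀ x, wavg b F x = (q (x - b) - q (x + b)) / (2 * b) := by
    intro x; unfold wavg; rw [h.int_F]
  set P : Set ℝ := {x | b < x ∧ x < L + b ∧ 0 < v (x - b) - v (x + b)} with hP
  have hPne : P.Nonempty := by
    refine ⟨max b (L - b) / 2 + (L + b) / 2, ?_, ?_, ?_⟩
    · have : b ≤ max b (L - b) := le_max_left _ _
      linarith [h.L_pos]
    · have : max b (L - b) < L + b := max_lt (by linarith [h.L_pos]) (by linarith)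
      linarith
    · have h1 : b ≤ max b (L - b) := le_max_left _ _
      have h2 : L - b ≤ max b (L - b) := le_max_right _ _
      have h3 : max b (L - b) < L + b := max_lt (by linarith [h.L_pos]) (by linarith)
      rw [h.supp (max b (L - b) / 2 + (L + b) / 2 + b) (by linarith), sub_zero]
      exact h.pos _ (by linarith [h.L_pos]) (by linarith)
  have hPb : BddBelow P := ⟨b, fun x hx => hx.1.le⟩
  set z' := sInf P with hz'
  have hbz : b ≤ z' := le_csInf hPne fun x hx => hx.1.le
  have hzL : z' < L + b := by
    obtain ⟨x, hx⟩ := hPne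
    exact lt_of_le_of_lt (csInf_le hPb hx) hx.2.1
  have hpos : ∀ x, z' < x → x < L + b → 0 < v (x - b) - v (x + b) := by
    intro x hx hxL
    obtain ⟨w, hw, hwx⟩ := exists_lt_of_csInf_lt hPne hx
    exact h.diff_pos_up hb hw.1.le hwx.le hxL hw.2.2
  have hneg0 : ∀ x, 0 ≤ x → x < z' → v (x - b) - v (x + b) ≤ 0 := by
    intro x hx hxz
    rcases le_or_gt x b with h1 | h1
    · have e1 : v (x - b) = - v (b - x) := by rw [← h.odd, neg_sub]
      have := h.v_nonneg (x := b - x) (by linarith)
      have := h.v_nonneg (x := x + b) (by linarith)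
      rw [e1]; linarith
    · by_contra hcon
      exact absurd (csInf_le hPb (⟨h1, hxz.trans hzL, not_le.1 hcon⟩ : x ∈ P)) (not_le.2 hxz)
  have hneg : ∀ x, 0 ≤ x → x ≤ z' → v (x - b) - v (x + b) ≤ 0 := by
    intro x hx hxz
    rcases hxz.lt_or_eq with h1 | h1
    · exact hneg0 x hx h1
    · have hc : Continuous (fun x => v (x - b) - v (x + b)) := by
        have := h.v_cont; fun_prop
      have ht : Tendsto (fun x => v (x - b) - v (x + b)) (𝓝[<] z') (𝓝 (v (z' - b) - v (z' + b))) :=
        hc.continuousAt.tendsto.mono_left nhdsWithin_le_nhds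
      rw [h1]
      refine le_of_tendsto ht ?_
      filter_upwards [Ioo_mem_nhdsLT (lt_of_lt_of_le hb hbz)] with y hy
      exact hneg0 y hy.1.le hy.2
  refine ⟨z', ?_, ?_, wavg_continuous h.hF b, ?_, lt_of_lt_of_le hb hbz, hzL, ?_, ?_, ?_, ?_, ?_, ?_⟩
  · intro x
    have := (win_hasDerivAt h.v_cont b x).div_const (2 * b)
    refine this.congr_deriv ?_
    rw [eq_q]; ring
  · intro x
    have e : wavg b q = fun x => (v (x - b) - v (x + b)) / (2 * b) := funext eq_q
    rw [e]
    have h1 : HasDerivAt (fun x => v (x - b)) (-q (x - b)) x := (h.hv (x - b)).comp_sub_const x b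
    have h2 : HasDerivAt (fun x => v (x + b)) (-q (x + b)) x := (h.hv (x + b)).comp_add_const x b
    refine ((h1.sub h2).div_const (2 * b)).congr_deriv ?_
    rw [eq_F]; ring
  · intro x
    unfold wavg
    have h1 := intervalIntegral.integral_comp_neg (a := x - b) (b := x + b) v
    simp only [h.odd, intervalIntegral.integral_neg] at h1
    rw [show -x - b = -(x + b) by ring, show -x + b = -(x - b) by ring, ← h1, neg_div]
  · intro x hx hxL
    exact div_pos (h.win_pos hb hbL hx hxL) h2b
  · intro x hx
    unfold wavg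
    have : ∫ s in (x - b)..(x + b), v s = 0 := by
      rw [← intervalIntegral.integral_zero (a := x - b) (b := x + b) (μ := volume) (E := ℝ)]
      apply intervalIntegral.integral_congr
      intro s hs
      rw [uIcc_of_le (by linarith)] at hs
      exact h.supp s (by linarith [hs.1])
    rw [this, zero_div]
  · intro x y hx hxy hy
    have := h.win_log hb hbL hx hxy hy
    rw [eq_q, eq_q]
    unfold wavg
    have e1 : -((v (y - b) - v (y + b)) / (2 * b)) * ((∫ s in (x - b)..(x + b), v s) / (2 * b)) =
        ((v (y + b) - v (y - b)) * ∫ s in (x - b)..(x + b), v s) / (2 * b) ^ 2 := by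
      field_simp; ring
    have e2 : -((v (x - b) - v (x + b)) / (2 * b)) * ((∫ s in (y - b)..(y + b), v s) / (2 * b)) =
        ((v (x + b) - v (x - b)) * ∫ s in (y - b)..(y + b), v s) / (2 * b) ^ 2 := by
      field_simp; ring
    rw [e1, e2]
    exact div_le_div_of_nonneg_right this (by positivity)
  · intro x hx hxz
    rw [eq_q]
    exact div_nonpos_of_nonpos_of_nonneg (hneg x hx hxz) h2b.le
  · intro x hx hxL
    rw [eq_q]
    exact div_pos (hpos x hx hxL) h2b
  · intro x y hx hxy hy
    have := h.diff_log hb (hbz.trans hx.le) hxy (hpos x hx (lt_of_le_of_lt hxy hy))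
      (hpos y (lt_of_lt_of_le hx hxy) hy)
    rw [eq_q, eq_q, eq_F, eq_F]
    have e1 : -((q (y - b) - q (y + b)) / (2 * b)) * ((v (x - b) - v (x + b)) / (2 * b)) =
        ((q (y + b) - q (y - b)) * (v (x - b) - v (x + b))) / (2 * b) ^ 2 := by
      field_simp; ring
    have e2 : -((q (x - b) - q (x + b)) / (2 * b)) * ((v (y - b) - v (y + b)) / (2 * b)) =
        ((q (x + b) - q (x - b)) * (v (y - b) - v (y + b))) / (2 * b) ^ 2 := by
      field_simp; ring
    rw [e1, e2]
    exact div_le_div_of_nonneg_right this (by positivity)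

end Good

end Pool.Agent.H60.Big
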